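import Pool.Agent.Q156.SW.S5
import Pool.Agent.Q156.MW.M6

/-!
The main theorem: only the primes up to a constant times `log log x` matter.
-/

set_option autoImplicit false

namespace Pool.Agent.Q156.SW

open Finset Filter Topology Polynomial
open Pool.Agent.H373R2.T7 (pz mem_pz Vz Vz_pos Vz_le_one Vz_inv_small)
open Pool.Agent.TH204.WR (rt evt_log_ge evt_log_pow)
open Pool.Agent.Q156.MW (pr md log_near prod_near loglog_small md_eq md_zero)

/-- the product of the primes up to `y` -/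
def prim (y : ℕ) : ℕ := ∏ p ∈ (Icc 1 y).filter Nat.Prime, p

lemma prim_pos (y : ℕ) : 0 < prim y := by
  unfold prim
  exact prod_pos fun p hp => (mem_filter.1 hp).2.pos

lemma prim_dvd {p y : ℕ} (hp : p.Prime) (h : p ≤ y) : p ∣ prim y := by
  unfold prim
  exact dvd_prod_of_mem _ (mem_filter.2 ⟨mem_Icc.2 ⟨hp.one_le, h⟩, hp⟩)

lemma prim_not_dvd {p y : ℕ} (hp : p.Prime) (h : y < p) : ¬ p ∣ prim y := by
  unfold prim
  intro hd
  obtain ⟨q, hq, hpq⟩ := (Prime.dvd_finsetProd_iff hp.prime _).1 hd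
  obtain ⟨hq1, hq2⟩ := mem_filter.1 hq
  rw [Nat.prime_dvd_prime_iff_eq hp hq2] at hpq
  have := (mem_Icc.1 hq1).2
  omega

lemma prim_le (y : ℕ) : prim y ≤ 4 ^ y := by
  have h := primorial_le_four_pow y
  unfold primorial at h
  unfold prim
  refine le_trans (le_of_eq ?_) h
  apply prod_congr _ fun _ _ => rfl
  ext p
  rw [mem_filter, mem_filter, mem_Icc, mem_range]
  constructor
  · rintro ⟨⟨_, h2⟩, h3⟩
    exact ⟨by omega, h3⟩
  · rintro ⟨h2, h3⟩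
    exact ⟨⟨h3.one_le, by omega⟩, h3⟩

lemma Vz_split (z₁ z : ℕ) (h : z₁ ≤ z) : Vz z = Vz z₁ * V1 z₁ z := by
  unfold Vz V1
  rw [pq_sub, ← prod_filter_mul_prod_filter_not (pz z) (fun p => z₁ < p), mul_comm]
  congr 1
  apply prod_congr _ fun _ _ => rfl
  ext p
  rw [mem_filter, mem_pz, mem_pz]
  constructor
  · rintro ⟨⟨h1, h2⟩, h3⟩
    exact ⟨by omega, h2⟩
  · rintro ⟨h1, h2⟩
    exact ⟨⟨by omega, h2⟩, by omega⟩

open Classical in
/-- the normalised indicator of the rough values -/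
noncomputable def bb (z₁ z : ℕ) (P : ℤ) (c : ℤ) (t : ℕ) : ℝ := if rg z₁ z (c + P * t) then (V1 z₁ z)⁻¹ else 0

lemma bb_nonneg (z₁ z : ℕ) (P : ℤ) (c : ℤ) (t : ℕ) : 0 ≤ bb z₁ z P c t := by
  unfold bb
  split_ifs
  · exact (inv_pos.2 (V1_pos z₁ z)).le
  · exact le_rfl

lemma bb_sum (z₁ z : ℕ) (P c : ℤ) (T : ℕ) : ∑ t ∈ Icc 1 T, bb z₁ z P c t = (V1 z₁ z)⁻¹ * cnt2 z₁ z P c c T := by
  classical
  unfold bb cnt2
  rw [← sum_filter, sum_const, nsmul_eq_mul, mul_comm]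
  congr 3
  apply filter_congr
  intro t _
  tauto

lemma bb_sum2 (z₁ z : ℕ) (P c c' : ℤ) (T : ℕ) :
    ∑ t ∈ Icc 1 T, bb z₁ z P c t * bb z₁ z P c' t = (V1 z₁ z)⁻¹ ^ 2 * cnt2 z₁ z P c c' T := by
  classical
  unfold bb cnt2
  have h1 : ∀ t ∈ Icc 1 T, (if rg z₁ z (c + P * t) then (V1 z₁ z)⁻¹ else 0) *
      (if rg z₁ z (c' + P * t) then (V1 z₁ z)⁻¹ else 0) =
      if rg z₁ z (c + P * t) ∧ rg z₁ z (c' + P * t) then (V1 z₁ z)⁻¹ ^ 2 else 0 := by
    intro t _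
    by_cases h1 : rg z₁ z (c + P * t) <;> by_cases h2 : rg z₁ z (c' + P * t) <;> simp [h1, h2, sq]
  rw [sum_congr rfl h1, ← sum_filter, sum_const, nsmul_eq_mul, mul_comm]

end Pool.Agent.Q156.SW
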