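import Pool.Agent.Q156.MW.M2

/-!
Simultaneous primes `F_j(g_j(m)) + a_j` for almost all tuples of constant terms, where the `g_j` are
arbitrary injective functions on a set `S`.
-/

set_option autoImplicit false

namespace Pool.Agent.Q156.SW

open Finset Filter Topology Polynomial
open Pool.Agent.H373R2.T7 (pz Vz lamz mem_pz Vz_inv_small Vz_pos)
open Pool.Agent.TH204.WR (rt evt_log_ge)
open Pool.Agent.Q156.AW (primeSum sieveSum both_signs)
open Pool.Agent.Q156.MW (pr md primeSum_eq sieveSum_eq pr_nonneg pr_le_one md_bd count_fiber)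

open Classical in
/-- the weights on the values of an injective function -/
noncomputable def push (S : Finset ℕ) (g : ℕ → ℤ) (y : ℕ → ℝ) (q : ℤ) : ℝ := ∑ m ∈ S.filter (fun m => g m = q), y m

lemma push_bd (S : Finset ℕ) (g : ℕ → ℤ) (hg : Set.InjOn g S) (y : ℕ → ℝ) (hy : ∀ m, |y m| ≤ 1) (q : ℤ) :
    |push S g y q| ≤ 1 := by
  classical
  unfold push
  have h1 : #(S.filter (fun m => g m = q)) ≤ 1 := by
    rw [card_le_one]
    intro a ha b hb
    obtain ⟨ha1, ha2⟩ := mem_filter.1 ha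
    obtain ⟨hb1, hb2⟩ := mem_filter.1 hb
    exact hg ha1 hb1 (ha2.trans hb2.symm)
  refine (abs_sum_le_sum_abs _ _).trans ((sum_le_sum fun m _ => hy m).trans ?_)
  rw [sum_const, nsmul_eq_mul, mul_one]
  exact_mod_cast h1

lemma push_sum (S : Finset ℕ) (g : ℕ → ℤ) (y : ℕ → ℝ) (u v : ℤ) (hS : ∀ m ∈ S, g m ∈ Ioc u v) (f : ℤ → ℝ) :
    ∑ q ∈ Ioc u v, push S g y q * f q = ∑ m ∈ S, y m * f (g m) := by
  classical
  rw [← sum_fiberwise_of_maps_to (g := g) (t := Ioc u v) hS]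
  apply sum_congr rfl
  intro q _
  unfold push
  rw [sum_mul]
  apply sum_congr rfl
  intro m hm
  rw [(mem_filter.1 hm).2]

/-- the weights for the polynomial number `t` -/
noncomputable def yt {r : ℕ} (F : Fin r → ℤ[X]) (g : Fin r → ℕ → ℤ) (z : ℕ) (L : ℝ) (t : Fin r) (a : Fin r → ℤ)
    (m : ℕ) : ℝ :=
  (∏ l ∈ univ.filter (fun l => l < t), pr (F l) (a l) (g l m)) *
    ∏ l ∈ univ.filter (fun l => t < l), (md z (F l) (a l) (g l m) / (2 * L))

lemma yt_congr {r : ℕ} (F : Fin r → ℤ[X]) (g : Fin r → ℕ → ℤ) (z : ℕ) (L : ℝ) (t : Fin r) (a b : Fin r → ℤ)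
    (h : ∀ l, l ≠ t → a l = b l) : yt F g z L t a = yt F g z L t b := by
  funext m
  unfold yt
  congr 1
  · apply prod_congr rfl
    intro l hl
    rw [h l (ne_of_lt (mem_filter.1 hl).2)]
  · apply prod_congr rfl
    intro l hl
    rw [h l (ne_of_gt (mem_filter.1 hl).2)]

lemma yt_bd {r : ℕ} (F : Fin r → ℤ[X]) (g : Fin r → ℕ → ℤ) (z : ℕ) (L : ℝ) (hL : 0 < L) (hz : (Vz z)⁻¹ ≤ L)
    (t : Fin r) (a : Fin r → ℤ) (m : ℕ) : |yt F g z L t a m| ≤ 1 := by
  unfold yt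
  rw [abs_mul]
  have h1 : |∏ l ∈ univ.filter (fun l => l < t), pr (F l) (a l) (g l m)| ≤ 1 := by
    rw [abs_of_nonneg (prod_nonneg fun l _ => pr_nonneg _ _ _)]
    exact prod_le_one (fun l _ => pr_nonneg _ _ _) (fun l _ => pr_le_one _ _ _)
  have h2 : |∏ l ∈ univ.filter (fun l => t < l), (md z (F l) (a l) (g l m) / (2 * L))| ≤ 1 := by
    have h3 : ∀ l, 0 ≤ md z (F l) (a l) (g l m) / (2 * L) := fun l =>
      div_nonneg (md_bd z (F l) (a l) (g l m) L hz).1 (by positivity)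
    rw [abs_of_nonneg (prod_nonneg fun l _ => h3 l)]
    refine prod_le_one (fun l _ => h3 l) (fun l _ => ?_)
    rw [div_le_one (by positivity)]
    exact (md_bd z (F l) (a l) (g l m) L hz).2
  have a2 := abs_nonneg (∏ l ∈ univ.filter (fun l => l < t), pr (F l) (a l) (g l m))
  have a3 := abs_nonneg (∏ l ∈ univ.filter (fun l => t < l), (md z (F l) (a l) (g l m) / (2 * L)))
  nlinarith

/-- the telescoping identity -/
lemma telescopeS {r : ℕ} (F : Fin r → ℤ[X]) (g : Fin r → ℕ → ℤ) (z : ℕ) (L : ℝ) (hL : 0 < L) (a : Fin r → ℤ)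
    (S : Finset ℕ) (u v : Fin r → ℤ) (hS : ∀ j, ∀ m ∈ S, g j m ∈ Ioc (u j) (v j)) :
    ∑ m ∈ S, ∏ j, pr (F j) (a j) (g j m) - ∑ m ∈ S, ∏ j, md z (F j) (a j) (g j m) =
      ∑ t, (2 * L) ^ #(univ.filter (fun l : Fin r => t < l)) *
        (primeSum (F t) (a t) (push S (g t) (yt F g z L t a)) (u t) (v t) -
          sieveSum (F t) (a t) z (push S (g t) (yt F g z L t a)) (u t) (v t)) := by
  have h1 : ∀ m : ℕ, ∏ j, pr (F j) (a j) (g j m) - ∏ j, md z (F j) (a j) (g j m) =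
      ∑ t, (pr (F t) (a t) (g t m) - md z (F t) (a t) (g t m)) *
        (∏ l ∈ univ.filter (fun l => l < t), pr (F l) (a l) (g l m)) *
        ∏ l ∈ univ.filter (fun l => t < l), md z (F l) (a l) (g l m) := by
    intro m
    have h2 := prod_sub_ordered (univ : Finset (Fin r)) (fun j => md z (F j) (a j) (g j m))
      (fun j => md z (F j) (a j) (g j m) - pr (F j) (a j) (g j m))
    simp only [sub_sub_cancel] at h2
    rw [h2, sub_sub_cancel_left, ← sum_neg_distrib]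
    apply sum_congr rfl
    intro t _
    ring
  rw [← sum_sub_distrib]
  have h3 : ∀ m ∈ S, ∏ j, pr (F j) (a j) (g j m) - ∏ j, md z (F j) (a j) (g j m) =
      ∑ t, (2 * L) ^ #(univ.filter (fun l : Fin r => t < l)) * (yt F g z L t a m * pr (F t) (a t) (g t m) -
        yt F g z L t a m * md z (F t) (a t) (g t m)) := by
    intro m _
    rw [h1 m]
    apply sum_congr rfl
    intro t _
    unfold yt
    rw [prod_div_distrib, prod_const]
    have h4 : (2 * L) ^ #(univ.filter (fun l : Fin r => t < l)) ≠ 0 := by positivity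
    field_simp
  rw [sum_congr rfl h3, sum_comm]
  apply sum_congr rfl
  intro t _
  rw [primeSum_eq, sieveSum_eq, push_sum S (g t) _ (u t) (v t) (hS t) (fun q => pr (F t) (a t) q),
    push_sum S (g t) _ (u t) (v t) (hS t) (fun q => md z (F t) (a t) q), ← sum_sub_distrib, mul_sum]

/-- **Almost all tuples of constant terms, arbitrary injective functions.** -/
theorem tuplesS (r : ℕ) (k : Fin r → ℕ) (hk : ∀ j, 1 ≤ k j) (F : Fin r → ℤ[X]) (hF : ∀ j, (F j).natDegree = k j + 1)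
    (U C : ℕ) :
    ∃ B E0 : ℕ, ∀ E : ℕ, E0 ≤ E → ∃ X0 : ℕ, ∀ x : ℕ, X0 ≤ x →
    ∀ (S : Finset ℕ) (g : Fin r → ℕ → ℤ) (u v : Fin r → ℤ), (∀ j, Set.InjOn (g j) S) →
      (∀ j, ∀ m ∈ S, g j m ∈ Ioc (u j) (v j)) → (∀ j, Real.log x ^ B ≤ (v j : ℝ) - u j) →
    ∃ Bad ⊆ Fintype.piFinset (fun _ : Fin r => Icc (-(x : ℤ)) x), (#Bad : ℝ) ≤ (x : ℝ) ^ r / Real.log x ^ U ∧
    ∀ a ∈ Fintype.piFinset (fun _ : Fin r => Icc (-(x : ℤ)) x), a ∉ Bad →
      (∀ j, ∀ q ∈ Ioc (u j) (v j), 2 ≤ (F j).eval q + a j ∧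
        (((F j).eval q + a j : ℤ) : ℝ) ≤ ((v j : ℝ) - u j) * (rt (k j) x ^ (k j) * Real.log x ^ C)) →
      |∑ m ∈ S, ∏ j, pr (F j) (a j) (g j m) -
        ∑ m ∈ S, ∏ j, md ⌊Real.log x ^ E⌋₊ (F j) (a j) (g j m)| ≤ (∑ j, ((v j : ℝ) - u j)) / Real.log x ^ U := by
  classical
  obtain ⟨U', hU'⟩ : ∃ U', U' = U + 2 * r + 2 := ⟨_, rfl⟩
  choose Bj Ej hj using fun j => both_signs (k j) (hk j) (F j) (hF j) U' C 0
  refine ⟨univ.sup Bj, univ.sup Ej, fun E hE => ?_⟩
  have hEj : ∀ j, Ej j ≤ E := fun j => (le_sup (mem_univ j)).trans hE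
  choose Xj hX using fun j => hj j E (hEj j)
  obtain ⟨X1, h1⟩ := Vz_inv_small E
  obtain ⟨X2, h2⟩ := eventually_atTop.1 (evt_log_ge (4 + r + 3 ^ r * r))
  refine ⟨max (univ.sup Xj) (max (max X1 X2) 1), fun x hx S g u v hg hS hW => ?_⟩
  have hx1 : X1 ≤ x := ((le_max_left _ _).trans (le_max_left _ _)).trans ((le_max_right _ _).trans hx)
  have hx2 : X2 ≤ x := ((le_max_right _ _).trans (le_max_left _ _)).trans ((le_max_right _ _).trans hx)
  have hx3 : 1 ≤ x := (le_max_right _ _).trans ((le_max_right _ _).trans hx)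
  have hxj : ∀ j, Xj j ≤ x := fun j => (le_sup (mem_univ j)).trans ((le_max_left _ _).trans hx)
  have hL := h2 x hx2
  obtain ⟨L, hLd⟩ : ∃ L, L = Real.log x := ⟨_, rfl⟩
  rw [← hLd] at hL hW ⊢
  have hnr : (0 : ℝ) ≤ r := Nat.cast_nonneg _
  have h3n : (0 : ℝ) ≤ 3 ^ r * r := by positivity
  have hL4 : 4 ≤ L := by linarith
  have hLn : (r : ℝ) ≤ L := by linarith
  have hL3n : 3 ^ r * (r : ℝ) ≤ L := by linarith
  have hL0 : 0 < L := by linarith
  have hL1 : 1 ≤ L := by linarith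
  have hxr : (1 : ℝ) ≤ x := by exact_mod_cast hx3
  obtain ⟨z, hz⟩ : ∃ z, z = ⌊L ^ E⌋₊ := ⟨_, rfl⟩
  have hz1 : 1 ≤ z := by
    rw [hz]
    apply Nat.le_floor
    rw [Nat.cast_one]
    exact one_le_pow₀ hL1
  have hzV : (Vz z)⁻¹ ≤ L := by
    rw [hLd]
    apply h1 x hx1 z hz1
    rw [hz, hLd]
    exact Nat.floor_le (by rw [← hLd]; positivity)
  have H : ∀ (t : Fin r) (w' : ℤ → ℝ), ∃ Bad : Finset ℤ, (∀ m, |w' m| ≤ 1) → Bad ⊆ Icc (-(x : ℤ)) x ∧
      (#Bad : ℝ) ≤ x / L ^ U' ∧ ∀ b ∈ Icc (-(x : ℤ)) x, b ∉ Bad →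
      ∀ u v : ℤ, L ^ Bj t ≤ (v : ℝ) - u →
      (∀ m ∈ Ioc u v, 2 ≤ (F t).eval m + b ∧
        (((F t).eval m + b : ℤ) : ℝ) ≤ ((v : ℝ) - u) * (rt (k t) x ^ (k t) * L ^ C)) →
      |primeSum (F t) b w' u v - sieveSum (F t) b z w' u v| ≤ ((v : ℝ) - u) / L ^ U' := by
    intro t w'
    by_cases hw' : ∀ m, |w' m| ≤ 1
    · obtain ⟨Bad, g1, g2, g3⟩ := hX t x (hxj t) (fun _ => w') (fun _ => hw')
      refine ⟨Bad, fun _ => ⟨g1, ?_, ?_⟩⟩
      · rw [hLd]
        exact g2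
      · intro b hb hbB u v huv hv
        rw [hLd] at huv hv hz ⊢
        rw [hz]
        exact g3 b hb hbB 0 (by simp) 1 (Or.inl rfl) u v huv (by simpa using hv)
    · exact ⟨∅, fun h => absurd h hw'⟩
  choose Bd hBd using H
  have hwt : ∀ t a q, |push S (g t) (yt F g z L t a) q| ≤ 1 := fun t a q =>
    push_bd S (g t) (hg t) _ (fun m => yt_bd F g z L hL0 hzV t a m) q
  obtain ⟨Bx, hBx⟩ : ∃ Bx, Bx = Fintype.piFinset (fun _ : Fin r => Icc (-(x : ℤ)) x) := ⟨_, rfl⟩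
  rw [← hBx]
  refine ⟨Bx.filter (fun a => ∃ t, a t ∈ Bd t (push S (g t) (yt F g z L t a))), filter_subset _ _, ?_, ?_⟩
  · -- the size of the exceptional set
    have e1 : Bx.filter (fun a => ∃ t, a t ∈ Bd t (push S (g t) (yt F g z L t a))) ⊆
        univ.biUnion (fun t => Bx.filter (fun a => a t ∈ Bd t (push S (g t) (yt F g z L t a)))) := by
      intro a ha
      obtain ⟨ha1, t, ht⟩ := mem_filter.1 ha
      exact mem_biUnion.2 ⟨t, mem_univ t, mem_filter.2 ⟨ha1, ht⟩⟩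
    have e2 : (#(Bx.filter (fun a => ∃ t, a t ∈ Bd t (push S (g t) (yt F g z L t a)))) : ℝ) ≤
        ∑ t, (#(Bx.filter (fun a => a t ∈ Bd t (push S (g t) (yt F g z L t a)))) : ℝ) := by
      exact_mod_cast (card_le_card e1).trans card_biUnion_le
    have e3 : ∀ t ∈ (univ : Finset (Fin r)), (#(Bx.filter (fun a => a t ∈ Bd t (push S (g t) (yt F g z L t a)))) : ℝ) ≤
        x / L ^ U' * (3 * x) ^ (r - 1) := by
      intro t _
      have f1 := count_fiber x t (fun a => Bd t (push S (g t) (yt F g z L t a)))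
        (fun a b hab => by rw [yt_congr F g z L t a b hab]) ⌊(x : ℝ) / L ^ U'⌋₊
        (fun a => Nat.le_floor (hBd t (push S (g t) (yt F g z L t a)) (hwt t a)).2.1)
      rw [← hBx] at f1
      have f2 : (#(Bx.filter (fun a => a t ∈ Bd t (push S (g t) (yt F g z L t a)))) : ℝ) ≤
          (⌊(x : ℝ) / L ^ U'⌋₊ : ℝ) * (2 * x + 1) ^ (r - 1) := by exact_mod_cast f1
      refine f2.trans (mul_le_mul (Nat.floor_le (by positivity)) ?_ (by positivity) (by positivity))
      exact pow_le_pow_left₀ (by positivity) (by linarith) _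
    refine e2.trans ((sum_le_sum e3).trans ?_)
    rw [sum_const, card_univ, Fintype.card_fin, nsmul_eq_mul]
    rcases Nat.eq_zero_or_pos r with hn | hn
    · subst hn
      simp only [Nat.cast_zero, zero_mul]
      positivity
    · obtain ⟨n', rfl⟩ : ∃ n', r = n' + 1 := ⟨r - 1, by omega⟩
      rw [Nat.add_sub_cancel]
      have f3 : (((n' + 1 : ℕ) : ℝ)) * ((x : ℝ) / L ^ U' * (3 * x) ^ n') =
          (3 ^ n' * ((n' + 1 : ℕ) : ℝ)) * ((x : ℝ) ^ (n' + 1) / L ^ U') := by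
        rw [mul_pow, pow_succ]
        ring
      have f4 : (3 : ℝ) ^ n' * ((n' + 1 : ℕ) : ℝ) ≤ L := by
        refine le_trans (mul_le_mul_of_nonneg_right ?_ (Nat.cast_nonneg _)) hL3n
        exact pow_le_pow_right₀ (by norm_num) (by omega)
      rw [f3]
      calc (3 ^ n' * ((n' + 1 : ℕ) : ℝ)) * ((x : ℝ) ^ (n' + 1) / L ^ U') ≤ L * ((x : ℝ) ^ (n' + 1) / L ^ U') :=
            mul_le_mul_of_nonneg_right f4 (by positivity)
        _ ≤ L ^ (2 * (n' + 1) + 2) * ((x : ℝ) ^ (n' + 1) / L ^ U') := by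
            apply mul_le_mul_of_nonneg_right _ (by positivity)
            exact le_self_pow₀ hL1 (by omega)
        _ = (x : ℝ) ^ (n' + 1) / L ^ U := by
            rw [hU', show U + 2 * (n' + 1) + 2 = U + (2 * (n' + 1) + 2) by ring, pow_add L U]
            have a1 : L ^ U ≠ 0 := by positivity
            have a2 : L ^ (2 * (n' + 1) + 2) ≠ 0 := by positivity
            field_simp
  · intro a ha haB hv
    rw [← hz, telescopeS F g z L hL0 a S u v hS]
    have huv0 : ∀ j, 0 ≤ (v j : ℝ) - u j := fun j => le_trans (by positivity) (hW j)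
    have e1 : ∀ t ∈ (univ : Finset (Fin r)), |(2 * L) ^ #(univ.filter (fun l : Fin r => t < l)) *
        (primeSum (F t) (a t) (push S (g t) (yt F g z L t a)) (u t) (v t) -
          sieveSum (F t) (a t) z (push S (g t) (yt F g z L t a)) (u t) (v t))| ≤
        (2 * L) ^ r * (((v t : ℝ) - u t) / L ^ U') := by
      intro t _
      rw [abs_mul, abs_of_nonneg (by positivity)]
      have f1 : #(univ.filter (fun l : Fin r => t < l)) ≤ r := by
        refine (card_filter_le _ _).trans ?_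
        rw [card_univ, Fintype.card_fin]
      have f2 : (2 * L) ^ #(univ.filter (fun l : Fin r => t < l)) ≤ (2 * L) ^ r :=
        pow_le_pow_right₀ (by linarith) f1
      refine mul_le_mul f2 ?_ (abs_nonneg _) (by positivity)
      have hb : a t ∈ Icc (-(x : ℤ)) x := by
        rw [hBx] at ha
        exact Fintype.mem_piFinset.1 ha t
      have hbB : a t ∉ Bd t (push S (g t) (yt F g z L t a)) := by
        intro h
        exact haB (mem_filter.2 ⟨ha, t, h⟩)
      refine (hBd t (push S (g t) (yt F g z L t a)) (hwt t a)).2.2 (a t) hb hbB (u t) (v t) ?_ (hv t)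
      refine le_trans (pow_le_pow_right₀ hL1 ?_) (hW t)
      exact le_sup (mem_univ t)
    refine (abs_sum_le_sum_abs _ _).trans ((sum_le_sum e1).trans ?_)
    rw [← mul_sum, ← sum_div]
    have hsum : 0 ≤ ∑ j, ((v j : ℝ) - u j) := sum_nonneg fun j _ => huv0 j
    have f3 : (2 * L) ^ r ≤ L ^ (2 * r + 2) := by
      calc (2 * L) ^ r ≤ (L * L) ^ r := pow_le_pow_left₀ (by positivity) (by nlinarith) _
        _ = L ^ (2 * r) := by
            rw [← pow_two, ← pow_mul]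
        _ ≤ L ^ (2 * r + 2) := pow_le_pow_right₀ hL1 (by omega)
    calc (2 * L) ^ r * ((∑ j, ((v j : ℝ) - u j)) / L ^ U') ≤ L ^ (2 * r + 2) * ((∑ j, ((v j : ℝ) - u j)) / L ^ U') :=
          mul_le_mul_of_nonneg_right f3 (by positivity)
      _ = (∑ j, ((v j : ℝ) - u j)) / L ^ U := by
          rw [hU', show U + 2 * r + 2 = U + (2 * r + 2) by ring, pow_add L U]
          have a1 : L ^ U ≠ 0 := by positivity
          have a2 : L ^ (2 * r + 2) ≠ 0 := by positivity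
          field_simp

end Pool.Agent.Q156.SW
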