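import Pool.Agent.Q156.SW.S9

/-!
Representations by primes with prime indices: the main theorem specialised.
-/

set_option autoImplicit false

namespace Pool.Agent.Q156.SW

open Finset Filter Topology Polynomial
open Pool.Agent.H373R2.T7 (Vz Vz_pos Vz_le_one Vz_inv_small)
open Pool.Agent.TH204.WR (rt evt_log_ge evt_log_pow)

/-- the number of the representations with `m ∈ S` -/
noncomputable def Rep (S : Finset ℕ) (n : ℕ) (a : Fin 3 → ℤ) : ℕ :=
  (S.filter (fun m => ∀ j, (arg n j m ^ 2 + a j).natAbs.Prime)).card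

/-- the set of the `m ∈ S` without obstruction at the primes up to `y` -/
noncomputable def LocS (S : Finset ℕ) (n y : ℕ) (b : Fin 3 → ℤ) : Finset ℕ :=
  S.filter (fun m => ∀ j, ∀ p ∈ (Icc 1 y).filter Nat.Prime, ¬ (p : ℤ) ∣ arg n j m ^ 2 + b j)

lemma Rep_eq (S : Finset ℕ) (n : ℕ) (a : Fin 3 → ℤ) : Rep S n a = cntS (fun _ : Fin 3 => (X : ℤ[X]) ^ 2) S (arg n) a := by
  classical
  unfold Rep cntS
  congr 1
  apply filter_congr
  intro m _
  simp only [eval_pow, eval_X]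

/-- the elements with an obstruction give no representation -/
lemma Rep_Loc (S : Finset ℕ) (n y : ℕ) (a b : Fin 3 → ℤ) (P : ℕ) (hP : ∀ p : ℕ, p.Prime → p ≤ y → p ∣ P)
    (hab : ∀ j, (P : ℤ) ∣ a j - b j) (hy : ∀ j, (y : ℤ) < a j) : Rep S n a = Rep (LocS S n y b) n a := by
  unfold Rep
  congr 1
  ext m
  unfold LocS
  rw [mem_filter, mem_filter, mem_filter]
  constructor
  · rintro ⟨h1, h2⟩
    refine ⟨⟨h1, ?_⟩, h2⟩
    intro j p hp hd
    obtain ⟨hp1, hp2⟩ := mem_filter.1 hp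
    rw [mem_Icc] at hp1
    have h3 : (p : ℤ) ∣ arg n j m ^ 2 + a j := by
      have h4 : arg n j m ^ 2 + a j = (arg n j m ^ 2 + b j) + (a j - b j) := by ring
      rw [h4]
      exact dvd_add hd ((Int.natCast_dvd_natCast.2 (hP p hp2 hp1.2)).trans (hab j))
    have h5 := h2 j
    have h6 : p ∣ (arg n j m ^ 2 + a j).natAbs := Int.natCast_dvd.1 h3
    have h7 := (Nat.prime_dvd_prime_iff_eq hp2 h5).1 h6
    have h8 : (y : ℤ) < arg n j m ^ 2 + a j := by
      have := sq_nonneg (arg n j m)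
      linarith [hy j]
    omega
  · rintro ⟨⟨h1, _⟩, h2⟩
    exact ⟨h1, h2⟩

open Classical in
theorem core (K : ℕ) (ε : ℝ) (hε : 0 < ε) : ∃ A N0 : ℕ, ∀ n : ℕ, N0 ≤ n → ∀ x : ℕ, x = 8 * q (q n) ^ 2 →
    ∀ S : Finset ℕ, S ⊆ Ioo 0 n → (n : ℝ) ≤ #S * Real.log n ^ K →
    ∀ (α : Fin 3 → ℤ) (T : ℕ), (∀ j, (x : ℤ) ≤ 4 * α j ∧ 2 * α j ≤ x) →
      4 * (T * prim ⌊A * Real.log (Real.log x)⌋₊) ≤ x →
      (x : ℝ) ≤ T * prim ⌊A * Real.log (Real.log x)⌋₊ * Real.log x ^ K →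
      (∀ j, ∀ m ∈ S, ∀ p : ℕ, p.Prime → p ≤ ⌊A * Real.log (Real.log x)⌋₊ → ¬ (p : ℤ) ∣ arg n j m ^ 2 + α j) →
      (((Fintype.piFinset (fun _ : Fin 3 => Icc 1 T)).filter (fun t =>
        ¬ |(Rep S n (fun j => α j + prim ⌊A * Real.log (Real.log x)⌋₊ * (t j : ℤ)) : ℝ) -
          #S / (Vz ⌊A * Real.log (Real.log x)⌋₊ * Real.log x) ^ 3| ≤
          ε * (#S / (Vz ⌊A * Real.log (Real.log x)⌋₊ * Real.log x) ^ 3))).card : ℝ) ≤ ε * (T : ℝ) ^ 3 := by
  obtain ⟨A, X0, h⟩ := main 3 1 le_rfl (fun _ : Fin 3 => (X : ℤ[X]) ^ 2) (fun j => by rw [natDegree_X_pow]) (K + 3) ε hε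
  obtain ⟨N1, hN⟩ := eventually_atTop.1 qq_le
  refine ⟨A, max (max X0 N1) 1, fun n hn x hx S hS hSn α T hα h1 h2 hcop => ?_⟩
  have hn0 : X0 ≤ n := (le_max_left _ _).trans ((le_max_left _ _).trans hn)
  have hn1 : N1 ≤ n := (le_max_right _ _).trans ((le_max_left _ _).trans hn)
  have hnn : 1 ≤ n := (le_max_right _ _).trans hn
  obtain ⟨g1, g2, g3⟩ := hN n hn1
  obtain ⟨Q, hQ⟩ : ∃ Q, Q = q (q n) := ⟨_, rfl⟩
  rw [← hQ] at g1 g2 hx
  have hQn : n ≤ Q := by exact_mod_cast g2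
  have hnx : n ≤ x := by
    rw [hx]
    nlinarith
  have hnx' : (n : ℝ) ≤ x := by exact_mod_cast hnx
  have hn0r : (0 : ℝ) < n := by exact_mod_cast hnn
  have hlognx : Real.log n ≤ Real.log x := Real.log_le_log hn0r hnx'
  have hln0 : 0 ≤ Real.log n := by linarith
  have hlx1 : 1 ≤ Real.log x := by linarith
  have hbig : 3 * (Q : ℝ) ≤ #S * Real.log x ^ (K + 3) := by
    calc 3 * (Q : ℝ) ≤ n * Real.log n ^ 3 := g1
      _ ≤ (#S * Real.log n ^ K) * Real.log n ^ 3 := mul_le_mul_of_nonneg_right hSn (by positivity)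
      _ = #S * Real.log n ^ (K + 3) := by ring
      _ ≤ #S * Real.log x ^ (K + 3) := by
          apply mul_le_mul_of_nonneg_left _ (Nat.cast_nonneg _)
          exact pow_le_pow_left₀ hln0 hlognx _
  have hQ0 : (0 : ℝ) ≤ Q := Nat.cast_nonneg _
  have h3 := h x (hn0.trans hnx) S (arg n) (fun _ => 0) (fun _ => Q)
    (fun j => (arg_inj n j).mono (by exact_mod_cast hS))
    (fun j m hm => by rw [hQ]; exact arg_mem n m (hS hm) j)
    ((rt_one x Q hx).trans hbig)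
    (fun j => by
      push_cast
      linarith)
    (fun j p hp => by
      simp only [eval_pow, eval_X]
      rw [mem_Ioc] at hp
      rw [abs_of_nonneg (sq_nonneg p), hx]
      push_cast
      nlinarith [hp.1, hp.2])
    α T hα h1 (by
      refine h2.trans ?_
      apply mul_le_mul_of_nonneg_left _ (by positivity)
      exact pow_le_pow_right₀ hlx1 (by omega))
    (fun j m hm p hp hpy => by
      simp only [eval_pow, eval_X]
      exact hcop j m hm p hp hpy)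
  simp only [← Rep_eq] at h3
  exact h3

end Pool.Agent.Q156.SW
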