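import Pool.Agent.Q156.SW.S1
import Pool.Agent.H373R2.T7.Fund

/-!
First and second moments of the rough values of a shifted progression.
-/

set_option autoImplicit false

namespace Pool.Agent.Q156.SW

open Finset Filter Topology Polynomial
open Pool.Agent.H373R2.T7 (pz mem_pz nuB PerB sys_fund nuB_le)

/-- the primes in `(z₁, z]` -/
def pq (z₁ z : ℕ) : Finset ℕ := (Ioc z₁ z).filter Nat.Prime

lemma mem_pq {z₁ z p : ℕ} : p ∈ pq z₁ z ↔ z₁ < p ∧ p ≤ z ∧ p.Prime := by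
  unfold pq
  rw [mem_filter, mem_Ioc, and_assoc]

noncomputable def V1 (z₁ z : ℕ) : ℝ := ∏ p ∈ pq z₁ z, (1 - 1 / (p : ℝ))

open Classical in
/-- the local factors of the common prime divisors -/
noncomputable def Yf (z₁ z : ℕ) (h : ℤ) : ℝ := ∏ p ∈ (pq z₁ z).filter (fun p : ℕ => (p : ℤ) ∣ h), (1 - 1 / (p : ℝ))⁻¹

/-- no prime divisor in `(z₁, z]` -/
def rg (z₁ z : ℕ) (v : ℤ) : Prop := ∀ p ∈ pq z₁ z, ¬ (p : ℤ) ∣ v

lemma one_sub_inv_pos {p : ℕ} (hp : 2 ≤ p) : (0 : ℝ) < 1 - 1 / (p : ℝ) ∧ 1 - 1 / (p : ℝ) ≤ 1 := by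
  have hpr : (2 : ℝ) ≤ p := by exact_mod_cast hp
  constructor
  · rw [sub_pos, div_lt_one (by linarith)]
    linarith
  · have : 0 ≤ 1 / (p : ℝ) := by positivity
    linarith

lemma V1_pos (z₁ z : ℕ) : 0 < V1 z₁ z := by
  unfold V1
  exact prod_pos fun p hp => (one_sub_inv_pos (mem_pq.1 hp).2.2.two_le).1

lemma V1_le_one (z₁ z : ℕ) : V1 z₁ z ≤ 1 := by
  unfold V1
  exact prod_le_one (fun p hp => (one_sub_inv_pos (mem_pq.1 hp).2.2.two_le).1.le)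
    (fun p hp => (one_sub_inv_pos (mem_pq.1 hp).2.2.two_le).2)

lemma Yf_ge_one (z₁ z : ℕ) (h : ℤ) : 1 ≤ Yf z₁ z h := by
  classical
  unfold Yf
  have h1 : ∀ p ∈ (pq z₁ z).filter (fun p : ℕ => (p : ℤ) ∣ h), (1 : ℝ) ≤ (1 - 1 / (p : ℝ))⁻¹ := by
    intro p hp
    have h2 := one_sub_inv_pos (mem_pq.1 (mem_filter.1 hp).1).2.2.two_le
    exact (one_le_inv₀ h2.1).2 h2.2
  calc (1 : ℝ) = ∏ _p ∈ (pq z₁ z).filter (fun p : ℕ => (p : ℤ) ∣ h), (1 : ℝ) := by rw [prod_const_one]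
    _ ≤ _ := Finset.prod_le_prod (fun _ _ => zero_le_one) h1

/-- the condition -/
def Q2 (z₁ : ℕ) (P c₁ c₂ : ℤ) (p t : ℕ) : Prop := z₁ < p ∧ ((p : ℤ) ∣ c₁ + P * t ∨ (p : ℤ) ∣ c₂ + P * t)

lemma card_one (p : ℕ) (hp : p.Prime) (P c : ℤ) (hP : ¬ (p : ℤ) ∣ P)
    [DecidablePred fun t : ℕ => (p : ℤ) ∣ c + P * t] :
    ((range p).filter (fun t : ℕ => (p : ℤ) ∣ c + P * t)).card = 1 := by
  haveI : Fact p.Prime := ⟨hp⟩
  have hP' : (P : ZMod p) ≠ 0 := by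
    intro h
    exact hP ((ZMod.intCast_zmod_eq_zero_iff_dvd _ _).1 h)
  rw [card_eq_one]
  refine ⟨(-(c : ZMod p) * (P : ZMod p)⁻¹).val, ?_⟩
  ext t
  rw [mem_filter, mem_range, mem_singleton]
  have key : ∀ t : ℕ, (p : ℤ) ∣ c + P * t ↔ (t : ZMod p) = -(c : ZMod p) * (P : ZMod p)⁻¹ := by
    intro t
    rw [← ZMod.intCast_zmod_eq_zero_iff_dvd]
    push_cast
    constructor
    · intro h
      have h2 : (P : ZMod p) * t = -c := by linear_combination h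
      rw [← h2]
      field_simp
    · intro h
      rw [h]
      field_simp
      ring
  constructor
  · rintro ⟨h1, h2⟩
    rw [key] at h2
    rw [← h2, ZMod.val_natCast, Nat.mod_eq_of_lt h1]
  · rintro rfl
    refine ⟨ZMod.val_lt _, ?_⟩
    rw [key, ZMod.natCast_zmod_val]

lemma dvd_shift (p : ℕ) (P c : ℤ) (t : ℕ) : (p : ℤ) ∣ c + P * t ↔ (p : ℤ) ∣ c + P * ((t % p : ℕ) : ℤ) := by
  have h1 : c + P * t = P * p * (t / p : ℕ) + (c + P * ((t % p : ℕ) : ℤ)) := by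
    have h2 : (t : ℤ) = p * (t / p : ℕ) + (t % p : ℕ) := by exact_mod_cast (Nat.div_add_mod t p).symm
    linear_combination P * h2
  rw [h1]
  apply dvd_add_right
  exact ⟨P * (t / p : ℕ), by ring⟩

lemma nuB_Q2 (z₁ : ℕ) (P c₁ c₂ : ℤ) (hP : ∀ p : ℕ, p.Prime → z₁ < p → ¬ (p : ℤ) ∣ P) (p : ℕ) (hp : p.Prime) :
    (p ≤ z₁ → nuB (Q2 z₁ P c₁ c₂) p = 0) ∧ (z₁ < p → 1 ≤ nuB (Q2 z₁ P c₁ c₂) p ∧ nuB (Q2 z₁ P c₁ c₂) p ≤ 2 ∧
      (¬ (p : ℤ) ∣ c₁ - c₂ → 2 ≤ nuB (Q2 z₁ P c₁ c₂) p) ∧ (c₁ = c₂ → nuB (Q2 z₁ P c₁ c₂) p ≤ 1)) := by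
  classical
  constructor
  · intro h
    unfold nuB
    rw [card_eq_zero, filter_eq_empty_iff]
    rintro t _ ⟨h1, _⟩
    omega
  · intro h
    have e1 := card_one p hp P c₁ (hP p hp h)
    have e2 := card_one p hp P c₂ (hP p hp h)
    have e : (range p).filter (fun t => Q2 z₁ P c₁ c₂ p t) =
        (range p).filter (fun t : ℕ => (p : ℤ) ∣ c₁ + P * t) ∪ (range p).filter (fun t : ℕ => (p : ℤ) ∣ c₂ + P * t) := by
      ext t
      rw [mem_union, mem_filter, mem_filter, mem_filter]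
      unfold Q2
      tauto
    have e' : nuB (Q2 z₁ P c₁ c₂) p = ((range p).filter (fun t : ℕ => (p : ℤ) ∣ c₁ + P * t) ∪
        (range p).filter (fun t : ℕ => (p : ℤ) ∣ c₂ + P * t)).card := by
      rw [← e]
      unfold nuB
      congr 1
    rw [e']
    refine ⟨?_, ?_, ?_, ?_⟩
    · rw [← e1]
      exact card_le_card subset_union_left
    · refine (card_union_le _ _).trans ?_
      omega
    · intro hd
      rw [card_union_of_disjoint, e1, e2]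
      rw [disjoint_filter]
      intro t _ h1 h2
      apply hd
      have h3 := dvd_sub h1 h2
      have h4 : c₁ + P * (t : ℤ) - (c₂ + P * t) = c₁ - c₂ := by ring
      rwa [h4] at h3
    · rintro rfl
      rw [union_self, e1]

lemma perB_Q2 (z₁ : ℕ) (P c₁ c₂ : ℤ) (hP : ∀ p : ℕ, p.Prime → z₁ < p → ¬ (p : ℤ) ∣ P) : PerB (Q2 z₁ P c₁ c₂) 2 := by
  refine ⟨fun p t => ?_, fun p hp => ?_⟩
  · unfold Q2
    rw [dvd_shift p P c₁ t, dvd_shift p P c₂ t]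
  · rcases le_or_gt p z₁ with h | h
    · rw [(nuB_Q2 z₁ P c₁ c₂ hP p hp).1 h]
      omega
    · exact ((nuB_Q2 z₁ P c₁ c₂ hP p hp).2 h).2.1

open Classical in
/-- the number of the rough values of one progression or two progressions -/
noncomputable def cnt2 (z₁ z : ℕ) (P c₁ c₂ : ℤ) (T : ℕ) : ℕ :=
  ((Icc 1 T).filter (fun t : ℕ => rg z₁ z (c₁ + P * t) ∧ rg z₁ z (c₂ + P * t))).card

lemma pq_sub (z₁ z : ℕ) : pq z₁ z = (pz z).filter (fun p => z₁ < p) := by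
  ext p
  rw [mem_pq, mem_filter, mem_pz]
  tauto

/-- the fundamental lemma for one or two shifted progressions -/
theorem moments (ε : ℝ) (hε : 0 < ε) : ∃ K z0 : ℕ, 1 ≤ K ∧ ∀ z₁ z : ℕ, z0 ≤ z → ∀ P : ℤ,
    (∀ p : ℕ, p.Prime → z₁ < p → ¬ (p : ℤ) ∣ P) → ∀ (c₁ c₂ : ℤ) (T : ℕ),
    (cnt2 z₁ z P c₁ c₂ T : ℝ) ≤ (1 + ε) * (T * (V1 z₁ z ^ 2 * Yf z₁ z (c₁ - c₂))) + (z : ℝ) ^ K ∧
    (1 - ε) * (T * V1 z₁ z) - (z : ℝ) ^ K ≤ (cnt2 z₁ z P c₁ c₁ T : ℝ) := by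
  classical
  obtain ⟨ε₁, hε₁⟩ : ∃ ε₁, ε₁ = min ε 1 := ⟨_, rfl⟩
  have hε₁0 : 0 < ε₁ := by rw [hε₁]; exact lt_min hε one_pos
  have hε₁1 : ε₁ ≤ 1 := by rw [hε₁]; exact min_le_right _ _
  have hε₁ε : ε₁ ≤ ε := by rw [hε₁]; exact min_le_left _ _
  obtain ⟨K, z0, hK, h⟩ := sys_fund 2 (by norm_num) ε₁ hε₁0
  refine ⟨K, max z0 1, hK, fun z₁ z hz P hP c₁ c₂ T => ?_⟩
  have hz0 : z0 ≤ z := (le_max_left _ _).trans hz
  have hz1 : 1 ≤ z := (le_max_right _ _).trans hz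
  have e4 : √(((z ^ K : ℕ) : ℝ)) ≤ (z : ℝ) ^ K := by
    push_cast
    have h2 : (1 : ℝ) ≤ (z : ℝ) ^ K := one_le_pow₀ (by exact_mod_cast hz1)
    rw [Real.sqrt_le_left (by positivity)]
    nlinarith
  have hT0 : (0 : ℝ) ≤ T := Nat.cast_nonneg _
  have main : ∀ c₁ c₂ : ℤ, |(cnt2 z₁ z P c₁ c₂ T : ℝ) - T * ∏ p ∈ pz z, (1 - (nuB (Q2 z₁ P c₁ c₂) p : ℝ) / p)| ≤
      ε₁ * (T * ∏ p ∈ pz z, (1 - (nuB (Q2 z₁ P c₁ c₂) p : ℝ) / p)) + (z : ℝ) ^ K := by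
    intro c₁ c₂
    have h1 := h (z ^ K) z hz0 le_rfl (Q2 z₁ P c₁ c₂) (perB_Q2 z₁ P c₁ c₂ hP) T
    have e1 : ((Icc 1 T).filter (fun n : ℕ => ∀ p ∈ pz z, ¬ Q2 z₁ P c₁ c₂ p n)).card = cnt2 z₁ z P c₁ c₂ T := by
      unfold cnt2
      congr 1
      apply filter_congr
      intro t _
      unfold Q2 rg
      rw [pq_sub]
      constructor
      · intro h2
        refine ⟨fun p hp hd => ?_, fun p hp hd => ?_⟩
        · exact h2 p (mem_filter.1 hp).1 ⟨(mem_filter.1 hp).2, Or.inl hd⟩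
        · exact h2 p (mem_filter.1 hp).1 ⟨(mem_filter.1 hp).2, Or.inr hd⟩
      · rintro ⟨h2, h3⟩ p hp ⟨h4, h5 | h5⟩
        · exact h2 p (mem_filter.2 ⟨hp, h4⟩) h5
        · exact h3 p (mem_filter.2 ⟨hp, h4⟩) h5
    rw [e1] at h1
    exact h1.trans (by linarith)
  constructor
  · have h1 := (abs_le.1 (main c₁ c₂)).2
    have h2 : ∏ p ∈ pz z, (1 - (nuB (Q2 z₁ P c₁ c₂) p : ℝ) / p) ≤ V1 z₁ z ^ 2 * Yf z₁ z (c₁ - c₂) := by
      have e1 : V1 z₁ z ^ 2 * Yf z₁ z (c₁ - c₂) = ∏ p ∈ pz z, (if z₁ < p then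
          ((1 - 1 / (p : ℝ)) ^ 2 * (if ((p : ℕ) : ℤ) ∣ c₁ - c₂ then (1 - 1 / (p : ℝ))⁻¹ else 1)) else 1) := by
        rw [prod_ite, prod_const_one, mul_one, prod_mul_distrib, prod_pow, prod_ite, prod_const_one, mul_one,
          ← pq_sub]
        unfold V1 Yf
        congr
      rw [e1]
      apply Finset.prod_le_prod
      · intro p hp
        have hp2 := (mem_pz.1 hp).2
        have hp0 : (0 : ℝ) < p := by exact_mod_cast hp2.pos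
        rw [sub_nonneg, div_le_one hp0]
        exact_mod_cast nuB_le _ _
      · intro p hp
        have hp2 := (mem_pz.1 hp).2
        have hp0 : (0 : ℝ) < p := by exact_mod_cast hp2.pos
        have hq := one_sub_inv_pos hp2.two_le
        split_ifs with h3 h4
        · have h5 := ((nuB_Q2 z₁ P c₁ c₂ hP p hp2).2 h3).1
          have h5r : (1 : ℝ) ≤ (nuB (Q2 z₁ P c₁ c₂) p : ℝ) := by exact_mod_cast h5
          have h6 : (1 - 1 / (p : ℝ)) ^ 2 * (1 - 1 / (p : ℝ))⁻¹ = 1 - 1 / (p : ℝ) := by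
            rw [sq, mul_assoc, mul_inv_cancel₀ hq.1.ne', mul_one]
          rw [h6]
          have h7 : 1 / (p : ℝ) ≤ (nuB (Q2 z₁ P c₁ c₂) p : ℝ) / p := div_le_div_of_nonneg_right h5r hp0.le
          linarith
        · have h5 := ((nuB_Q2 z₁ P c₁ c₂ hP p hp2).2 h3).2.2.1 h4
          have h5r : (2 : ℝ) ≤ (nuB (Q2 z₁ P c₁ c₂) p : ℝ) := by exact_mod_cast h5
          rw [mul_one]
          have h7 : 2 / (p : ℝ) ≤ (nuB (Q2 z₁ P c₁ c₂) p : ℝ) / p := div_le_div_of_nonneg_right h5r hp0.le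
          have h8 : (1 - 1 / (p : ℝ)) ^ 2 = 1 - 2 / p + (1 / (p : ℝ)) ^ 2 := by ring
          rw [h8]
          have h9 : 0 ≤ (1 / (p : ℝ)) ^ 2 := by positivity
          linarith
        · have : 0 ≤ (nuB (Q2 z₁ P c₁ c₂) p : ℝ) / p := by positivity
          linarith
    have h3 : (T : ℝ) * ∏ p ∈ pz z, (1 - (nuB (Q2 z₁ P c₁ c₂) p : ℝ) / p) ≤
        T * (V1 z₁ z ^ 2 * Yf z₁ z (c₁ - c₂)) := mul_le_mul_of_nonneg_left h2 hT0
    have h4 : 0 ≤ (T : ℝ) * (V1 z₁ z ^ 2 * Yf z₁ z (c₁ - c₂)) := by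
      have := Yf_ge_one z₁ z (c₁ - c₂)
      positivity
    nlinarith
  · have h1 := (abs_le.1 (main c₁ c₁)).1
    have h2 : V1 z₁ z ≤ ∏ p ∈ pz z, (1 - (nuB (Q2 z₁ P c₁ c₁) p : ℝ) / p) := by
      have e1 : V1 z₁ z = ∏ p ∈ pz z, (if z₁ < p then (1 - 1 / (p : ℝ)) else 1) := by
        rw [prod_ite, prod_const_one, mul_one, ← pq_sub]
        rfl
      rw [e1]
      apply Finset.prod_le_prod
      · intro p hp
        split_ifs
        · exact (one_sub_inv_pos (mem_pz.1 hp).2.two_le).1.le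
        · norm_num
      · intro p hp
        have hp2 := (mem_pz.1 hp).2
        have hp0 : (0 : ℝ) < p := by exact_mod_cast hp2.pos
        split_ifs with h3
        · have h5 := ((nuB_Q2 z₁ P c₁ c₁ hP p hp2).2 h3).2.2.2 rfl
          have h5r : (nuB (Q2 z₁ P c₁ c₁) p : ℝ) ≤ 1 := by exact_mod_cast h5
          have h7 : (nuB (Q2 z₁ P c₁ c₁) p : ℝ) / p ≤ 1 / (p : ℝ) := div_le_div_of_nonneg_right h5r hp0.le
          linarith
        · rw [(nuB_Q2 z₁ P c₁ c₁ hP p hp2).1 (by omega)]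
          simp
    have h3 : (T : ℝ) * V1 z₁ z ≤ T * ∏ p ∈ pz z, (1 - (nuB (Q2 z₁ P c₁ c₁) p : ℝ) / p) :=
      mul_le_mul_of_nonneg_left h2 hT0
    have h4 : 0 ≤ (T : ℝ) * V1 z₁ z := mul_nonneg hT0 (V1_pos z₁ z).le
    nlinarith

end Pool.Agent.Q156.SW
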