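import Pool.Agent.Q156.SW.S2
import Pool.Agent.Q156.MW.M3

/-!
High moments of the common small prime divisors.
-/

set_option autoImplicit false

namespace Pool.Agent.Q156.SW

open Finset Filter Topology Polynomial
open Pool.Agent.H373R2.T7 (pz mem_pz nuB PerB count_sys sum_pz_le)
open Pool.Agent.Q156.MW (QW QW_per nuB_QW nu nu_le cF perB_QW)

lemma exp_two (t : ℝ) (h0 : 0 ≤ t) (h1 : t ≤ 1) : Real.exp t ≤ 1 + 2 * t := by
  have h2 := Real.abs_exp_sub_one_sub_id_le (x := t) (by rw [abs_of_nonneg h0]; exact h1)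
  have h3 := (abs_le.1 h2).2
  nlinarith

lemma beta_bd (p M : ℕ) (hp : 2 ≤ p) (hM : 2 * M + 1 ≤ p) :
    0 ≤ ((1 - 1 / (p : ℝ))⁻¹) ^ M - 1 ∧ ((1 - 1 / (p : ℝ))⁻¹) ^ M - 1 ≤ 4 * M / p := by
  have hpr : (2 : ℝ) ≤ p := by exact_mod_cast hp
  have hMr : 2 * (M : ℝ) + 1 ≤ p := by exact_mod_cast hM
  have hM0 : (0 : ℝ) ≤ M := Nat.cast_nonneg _
  have hq := one_sub_inv_pos hp
  have h1 : (1 : ℝ) ≤ (1 - 1 / (p : ℝ))⁻¹ := (one_le_inv₀ hq.1).2 hq.2
  refine ⟨by linarith [one_le_pow₀ h1 (n := M)], ?_⟩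
  have h2 : (1 - 1 / (p : ℝ))⁻¹ = 1 + 1 / ((p : ℝ) - 1) := by
    have : (p : ℝ) - 1 ≠ 0 := by linarith
    have : (p : ℝ) ≠ 0 := by linarith
    field_simp
    ring
  have h3 : (1 - 1 / (p : ℝ))⁻¹ ≤ Real.exp (1 / ((p : ℝ) - 1)) := by
    rw [h2]
    have := Real.add_one_le_exp (1 / ((p : ℝ) - 1))
    linarith
  have h4 : ((1 - 1 / (p : ℝ))⁻¹) ^ M ≤ Real.exp (M * (1 / ((p : ℝ) - 1))) := by
    rw [Real.exp_nat_mul]
    exact pow_le_pow_left₀ (by linarith) h3 M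
  have h5 : (M : ℝ) * (1 / ((p : ℝ) - 1)) ≤ 2 * M / p := by
    rw [mul_one_div, div_le_div_iff₀ (by linarith) (by linarith)]
    nlinarith
  have h6 : 2 * (M : ℝ) / p ≤ 1 := by
    rw [div_le_one (by linarith)]
    linarith
  have h7 : 0 ≤ (M : ℝ) * (1 / ((p : ℝ) - 1)) := by
    apply mul_nonneg hM0
    apply one_div_nonneg.2
    linarith
  have h8 := exp_two _ h7 (h5.trans h6)
  have h9 : 4 * (M : ℝ) / p = 2 * (2 * M / p) := by ring
  linarith

/-- the number of the arguments in a window with prescribed prime divisors -/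
lemma count_div (F : ℤ[X]) (hF : 1 ≤ F.natDegree) (b u : ℤ) (N : ℕ) (D : Finset ℕ) (hD : ∀ p ∈ D, p.Prime)
    [DecidablePred fun n : ℕ => ∀ p ∈ D, (p : ℤ) ∣ F.eval (u + n) + b] :
    (((Icc 1 N).filter (fun n : ℕ => ∀ p ∈ D, (p : ℤ) ∣ F.eval (u + n) + b)).card : ℝ) ≤
      N * ∏ p ∈ D, ((cF (fun _ : Fin 1 => F) : ℝ) / p) + ∏ _p ∈ D, (cF (fun _ : Fin 1 => F) : ℝ) := by
  classical
  obtain ⟨c, hc⟩ : ∃ c, c = cF (fun _ : Fin 1 => F) := ⟨_, rfl⟩
  rw [← hc]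
  have h1 := count_sys (fun p a => QW (fun _ : Fin 1 => F) (fun _ => b) u p a) N D hD 1 le_rfl
    (fun p hp hd => (hD p hp).one_lt.ne' (Nat.dvd_one.1 hd)) 0
  have h2 : (Icc 1 N).filter (fun n : ℕ => ∀ p ∈ D, (p : ℤ) ∣ F.eval (u + n) + b) =
      (Icc 1 N).filter (fun n => n ≡ 0 [MOD 1] ∧ ∀ p ∈ D, QW (fun _ : Fin 1 => F) (fun _ => b) u p (n % p)) := by
    apply filter_congr
    intro n _
    constructor
    · intro h
      refine ⟨Nat.modEq_one, fun p hp => ?_⟩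
      rw [← QW_per]
      exact ⟨0, h p hp⟩
    · rintro ⟨_, h⟩ p hp
      have h3 := h p hp
      rw [← QW_per] at h3
      obtain ⟨_, h4⟩ := h3
      exact h4
  rw [h2]
  have h3 := (abs_le.1 h1).2
  rw [Nat.cast_one, div_one] at h3
  have h4 : ∀ p ∈ D, (((range p).filter (fun a => QW (fun _ : Fin 1 => F) (fun _ => b) u p a)).card : ℝ) ≤ c := by
    intro p hp
    have h5 : ((range p).filter (fun a => QW (fun _ : Fin 1 => F) (fun _ => b) u p a)).card =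
        nuB (QW (fun _ : Fin 1 => F) (fun _ => b) u) p := by
      unfold nuB
      congr
    rw [h5, nuB_QW _ _ _ _ (hD p hp).pos, hc]
    exact_mod_cast nu_le (fun _ : Fin 1 => F) (fun _ => hF) (fun _ => b) p (hD p hp)
  have h5 : ∏ p ∈ D, ((((range p).filter (fun a => QW (fun _ : Fin 1 => F) (fun _ => b) u p a)).card : ℝ) / p) ≤
      ∏ p ∈ D, ((c : ℝ) / p) := by
    apply Finset.prod_le_prod
    · intro p _
      positivity
    · intro p hp
      exact div_le_div_of_nonneg_right (h4 p hp) (Nat.cast_nonneg _)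
  have h6 : ∏ p ∈ D, (((range p).filter (fun a => QW (fun _ : Fin 1 => F) (fun _ => b) u p a)).card : ℝ) ≤
      ∏ _p ∈ D, (c : ℝ) := by
    apply Finset.prod_le_prod
    · intro p _
      positivity
    · exact h4
  have h7 := mul_le_mul_of_nonneg_left h5 (Nat.cast_nonneg (α := ℝ) N)
  linarith

lemma sum_sq_le (z₁ z : ℕ) (h : 1 ≤ z₁) : ∑ p ∈ pq z₁ z, 1 / (p : ℝ) ^ 2 ≤ (1 : ℝ) / z₁ := by
  have h1 : ∑ p ∈ pq z₁ z, 1 / (p : ℝ) ^ 2 ≤ ∑ n ∈ Ioc z₁ z, 1 / (n : ℝ) ^ 2 := by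
    unfold pq
    apply sum_le_sum_of_subset_of_nonneg (filter_subset _ _)
    intro _ _ _
    positivity
  refine h1.trans ?_
  rcases le_or_gt z z₁ with h2 | h2
  · rw [Ioc_eq_empty (by omega), sum_empty]
    positivity
  · have key : ∀ k : ℕ, ∑ n ∈ Ioc z₁ (z₁ + k), 1 / (n : ℝ) ^ 2 ≤ 1 / z₁ - 1 / ((z₁ + k : ℕ) : ℝ) := by
      intro k
      induction k with
      | zero => simp
      | succ k ih =>
        rw [← add_assoc, sum_Ioc_succ_top (by omega)]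
        have a1 : (1 : ℝ) ≤ z₁ := by exact_mod_cast h
        have a2 : (0 : ℝ) ≤ k := Nat.cast_nonneg _
        have h3 : 1 / (((z₁ + k + 1 : ℕ) : ℝ)) ^ 2 ≤ 1 / ((z₁ + k : ℕ) : ℝ) - 1 / ((z₁ + k + 1 : ℕ) : ℝ) := by
          push_cast
          have b1 : (0 : ℝ) < (z₁ : ℝ) + k := by linarith
          rw [div_sub_div _ _ (by positivity) (by positivity), div_le_div_iff₀ (by positivity) (by positivity)]
          nlinarith
        linarith
    obtain ⟨k, rfl⟩ : ∃ k, z = z₁ + k := ⟨z - z₁, by omega⟩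
    have h3 := key k
    have h4 : 0 ≤ 1 / ((z₁ + k : ℕ) : ℝ) := by positivity
    linarith

/-- **High moments of the common divisors of pairs.** -/
theorem pair_moment (F : ℤ[X]) (hF : 1 ≤ F.natDegree) (M z₁ z : ℕ) (hz₁ : 1 ≤ z₁) (hz : 1 ≤ z)
    (hM : 4 * M * (cF (fun _ : Fin 1 => F) + 1) + 1 ≤ z₁) (u v : ℤ) (N : ℕ) (hN : (N : ℤ) = v - u)
    (hNb : Real.exp (4 * M * cF (fun _ : Fin 1 => F) * (1 + Real.log z)) ≤ N) :
    ∑ q ∈ Ioc u v, ∑ q' ∈ Ioc u v, Yf z₁ z (F.eval q - F.eval q') ^ M ≤ 4 * (N : ℝ) ^ 2 := by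
  classical
  obtain ⟨c, hc⟩ : ∃ c, c = cF (fun _ : Fin 1 => F) := ⟨_, rfl⟩
  rw [← hc] at hM hNb
  have hc0 : (0 : ℝ) ≤ c := Nat.cast_nonneg _
  have hM0 : (0 : ℝ) ≤ M := Nat.cast_nonneg _
  have hN0 : (0 : ℝ) ≤ N := Nat.cast_nonneg _
  obtain ⟨β, hβ⟩ : ∃ β : ℕ → ℝ, β = fun p : ℕ => ((1 - 1 / (p : ℝ))⁻¹) ^ M - 1 := ⟨_, rfl⟩
  have hβb : ∀ p ∈ pq z₁ z, 0 ≤ β p ∧ β p ≤ 4 * M / p := by
    intro p hp
    have h1 := mem_pq.1 hp
    rw [hβ]
    apply beta_bd p M h1.2.2.two_le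
    have h2 : 2 * M ≤ 4 * M * (c + 1) := by nlinarith [Nat.zero_le (M * c)]
    omega
  -- the expansion
  have e1 : ∀ h : ℤ, Yf z₁ z h ^ M = ∑ D ∈ (pq z₁ z).powerset, if ∀ p ∈ D, ((p : ℕ) : ℤ) ∣ h then ∏ p ∈ D, β p else 0 := by
    intro h
    unfold Yf
    rw [← prod_pow, prod_filter]
    have e2 : ∏ p ∈ pq z₁ z, (if ((p : ℕ) : ℤ) ∣ h then ((1 - 1 / (p : ℝ))⁻¹) ^ M else 1) =
        ∏ p ∈ pq z₁ z, (1 + if ((p : ℕ) : ℤ) ∣ h then β p else 0) := by
      apply prod_congr rfl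
      intro p _
      rw [hβ]
      split_ifs <;> ring
    rw [e2, prod_one_add]
    apply sum_congr rfl
    intro D _
    rw [Finset.prod_ite_zero]
  have e2 : ∑ q ∈ Ioc u v, ∑ q' ∈ Ioc u v, Yf z₁ z (F.eval q - F.eval q') ^ M =
      ∑ D ∈ (pq z₁ z).powerset, (∏ p ∈ D, β p) * ∑ q ∈ Ioc u v,
        (((Ioc u v).filter (fun q' => ∀ p ∈ D, ((p : ℕ) : ℤ) ∣ F.eval q - F.eval q')).card : ℝ) := by
    have e3 : ∀ q ∈ Ioc u v, ∑ q' ∈ Ioc u v, Yf z₁ z (F.eval q - F.eval q') ^ M =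
        ∑ D ∈ (pq z₁ z).powerset, (∏ p ∈ D, β p) *
          (((Ioc u v).filter (fun q' => ∀ p ∈ D, ((p : ℕ) : ℤ) ∣ F.eval q - F.eval q')).card : ℝ) := by
      intro q _
      rw [sum_congr rfl fun q' _ => e1 (F.eval q - F.eval q'), sum_comm]
      apply sum_congr rfl
      intro D _
      rw [← sum_filter, sum_const, nsmul_eq_mul, mul_comm]
    rw [sum_congr rfl e3, sum_comm]
    apply sum_congr rfl
    intro D _
    rw [mul_sum]
  rw [e2]
  -- the counts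
  have e3 : ∀ D ∈ (pq z₁ z).powerset, ∀ q ∈ Ioc u v,
      (((Ioc u v).filter (fun q' => ∀ p ∈ D, ((p : ℕ) : ℤ) ∣ F.eval q - F.eval q')).card : ℝ) ≤
        N * ∏ p ∈ D, ((c : ℝ) / p) + ∏ _p ∈ D, (c : ℝ) := by
    intro D hD q _
    have h1 := count_div F hF (-F.eval q) u N D (fun p hp => (mem_pq.1 (mem_powerset.1 hD hp)).2.2)
    rw [← hc] at h1
    refine le_trans ?_ h1
    have h2 : ((Ioc u v).filter (fun q' => ∀ p ∈ D, ((p : ℕ) : ℤ) ∣ F.eval q - F.eval q')).card ≤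
        ((Icc 1 N).filter (fun n : ℕ => ∀ p ∈ D, (p : ℤ) ∣ F.eval (u + n) + -F.eval q)).card := by
      apply card_le_card_of_injOn (fun q' => (q' - u).toNat)
      · intro q' hq'
        obtain ⟨h3, h4⟩ := mem_filter.1 (mem_coe.1 hq')
        rw [mem_Ioc] at h3
        have h0 : 1 ≤ (q' - u).toNat ∧ (q' - u).toNat ≤ N := by omega
        refine mem_coe.2 (mem_filter.2 ⟨mem_Icc.2 h0, fun p hp => ?_⟩)
        have h5 : u + (((q' - u).toNat : ℕ) : ℤ) = q' := by omega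
        rw [h5]
        have h6 := h4 p hp
        rw [← dvd_neg] at h6
        have h7 : -(F.eval q - F.eval q') = F.eval q' + -F.eval q := by ring
        rwa [h7] at h6
      · intro q' hq' q'' hq'' h
        have h3 := mem_Ioc.1 (mem_filter.1 (mem_coe.1 hq')).1
        have h4 := mem_Ioc.1 (mem_filter.1 (mem_coe.1 hq'')).1
        simp only at h
        omega
    exact_mod_cast h2
  have hcard : ((Ioc u v).card : ℝ) = N := by
    rw [Int.card_Ioc]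
    have : (v - u).toNat = N := by omega
    rw [this]
  have e4 : ∑ D ∈ (pq z₁ z).powerset, (∏ p ∈ D, β p) * ∑ q ∈ Ioc u v,
        (((Ioc u v).filter (fun q' => ∀ p ∈ D, ((p : ℕ) : ℤ) ∣ F.eval q - F.eval q')).card : ℝ) ≤
      ∑ D ∈ (pq z₁ z).powerset, ((N : ℝ) ^ 2 * ∏ p ∈ D, (β p * (c / p)) + N * ∏ p ∈ D, (β p * c)) := by
    apply sum_le_sum
    intro D hD
    have h1 : ∑ q ∈ Ioc u v,
        (((Ioc u v).filter (fun q' => ∀ p ∈ D, ((p : ℕ) : ℤ) ∣ F.eval q - F.eval q')).card : ℝ) ≤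
        N * (N * ∏ p ∈ D, ((c : ℝ) / p) + ∏ _p ∈ D, (c : ℝ)) := by
      refine (sum_le_sum (e3 D hD)).trans (le_of_eq ?_)
      rw [sum_const, nsmul_eq_mul, hcard]
    have h2 : 0 ≤ ∏ p ∈ D, β p := prod_nonneg fun p hp => (hβb p (mem_powerset.1 hD hp)).1
    refine (mul_le_mul_of_nonneg_left h1 h2).trans (le_of_eq ?_)
    rw [prod_mul_distrib, prod_mul_distrib]
    ring
  refine e4.trans ?_
  rw [sum_add_distrib, ← mul_sum, ← mul_sum, ← prod_one_add, ← prod_one_add]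
  -- the two products
  have hz₁r : (1 : ℝ) ≤ z₁ := by exact_mod_cast hz₁
  have hMz : 4 * (M : ℝ) * c ≤ z₁ := by
    have h1 : 4 * M * c ≤ z₁ := by nlinarith [Nat.zero_le M]
    exact_mod_cast h1
  have p1 : ∏ p ∈ pq z₁ z, (1 + β p * (c / p)) ≤ 3 := by
    have h1 : ∀ p ∈ pq z₁ z, 1 + β p * (c / p) ≤ Real.exp (4 * M * c * (1 / (p : ℝ) ^ 2)) := by
      intro p hp
      have h2 := hβb p hp
      have hp0 : (0 : ℝ) < p := by exact_mod_cast (mem_pq.1 hp).2.2.pos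
      have h3 : β p * (c / p) ≤ 4 * M / p * (c / p) := mul_le_mul_of_nonneg_right h2.2 (by positivity)
      have h4 : 4 * (M : ℝ) / p * (c / p) = 4 * M * c * (1 / (p : ℝ) ^ 2) := by
        field_simp
      have := Real.add_one_le_exp (4 * M * c * (1 / (p : ℝ) ^ 2))
      linarith
    calc ∏ p ∈ pq z₁ z, (1 + β p * (c / p)) ≤ ∏ p ∈ pq z₁ z, Real.exp (4 * M * c * (1 / (p : ℝ) ^ 2)) := by
          apply Finset.prod_le_prod _ h1
          intro p hp
          have h2 := hβb p hp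
          have : 0 ≤ (c : ℝ) / p := by positivity
          have := mul_nonneg h2.1 this
          linarith
      _ = Real.exp (4 * M * c * ∑ p ∈ pq z₁ z, 1 / (p : ℝ) ^ 2) := by rw [← Real.exp_sum, mul_sum]
      _ ≤ Real.exp 1 := by
          apply Real.exp_le_exp.2
          have h2 := sum_sq_le z₁ z hz₁
          calc 4 * (M : ℝ) * c * ∑ p ∈ pq z₁ z, 1 / (p : ℝ) ^ 2 ≤ z₁ * (1 / z₁) :=
                mul_le_mul hMz h2 (sum_nonneg fun _ _ => by positivity) (by linarith)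
            _ = 1 := by field_simp
      _ ≤ 3 := by
          have := Real.exp_one_lt_d9
          linarith
  have p2 : ∏ p ∈ pq z₁ z, (1 + β p * c) ≤ N := by
    have h1 : ∀ p ∈ pq z₁ z, 1 + β p * c ≤ Real.exp (4 * M * c * (1 / (p : ℝ))) := by
      intro p hp
      have h2 := hβb p hp
      have h3 : β p * c ≤ 4 * M / p * c := mul_le_mul_of_nonneg_right h2.2 (by positivity)
      have h4 : 4 * (M : ℝ) / p * c = 4 * M * c * (1 / (p : ℝ)) := by ring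
      have := Real.add_one_le_exp (4 * M * c * (1 / (p : ℝ)))
      linarith
    calc ∏ p ∈ pq z₁ z, (1 + β p * c) ≤ ∏ p ∈ pq z₁ z, Real.exp (4 * M * c * (1 / (p : ℝ))) := by
          apply Finset.prod_le_prod _ h1
          intro p hp
          have h2 := hβb p hp
          have := mul_nonneg h2.1 hc0
          linarith
      _ = Real.exp (4 * M * c * ∑ p ∈ pq z₁ z, 1 / (p : ℝ)) := by rw [← Real.exp_sum, mul_sum]
      _ ≤ Real.exp (4 * M * c * (1 + Real.log z)) := by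
          apply Real.exp_le_exp.2
          apply mul_le_mul_of_nonneg_left _ (by positivity)
          refine le_trans ?_ (sum_pz_le z)
          rw [pq_sub]
          apply sum_le_sum_of_subset_of_nonneg (filter_subset _ _)
          intro _ _ _
          positivity
      _ ≤ N := hNb
  have hN2 : (0 : ℝ) ≤ (N : ℝ) ^ 2 := by positivity
  nlinarith [mul_le_mul_of_nonneg_left p1 hN2, mul_le_mul_of_nonneg_left p2 hN0]

end Pool.Agent.Q156.SW
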