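import Pool.Agent.Q156.SW.S3

/-!
The pairs of elements of an arbitrary set of positive logarithmic density have few common small
prime divisors on average: Hölder's inequality with an exponent of the order `log log x`.
-/

set_option autoImplicit false

namespace Pool.Agent.Q156.SW

open Finset Filter Topology Polynomial
open Pool.Agent.H373R2.T7 (pz mem_pz)
open Pool.Agent.TH204.WR (evt_log_ge)
open Pool.Agent.Q156.MW (cF)

lemma prod_le_sum_pow (r : ℕ) (hr : 1 ≤ r) (y : Fin r → ℝ) (hy : ∀ j, 0 ≤ y j) (R : ℕ) :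
    (∏ j, y j) ^ R ≤ ∑ j, y j ^ (r * R) := by
  haveI : Nonempty (Fin r) := ⟨⟨0, by omega⟩⟩
  obtain ⟨j0, _, hj0⟩ := exists_max_image (univ : Finset (Fin r)) y univ_nonempty
  have h1 : ∏ j, y j ≤ y j0 ^ r := by
    calc ∏ j, y j ≤ ∏ _j : Fin r, y j0 := Finset.prod_le_prod (fun j _ => hy j) (fun j _ => hj0 j (mem_univ j))
      _ = y j0 ^ r := by rw [prod_const, card_univ, Fintype.card_fin]
  calc (∏ j, y j) ^ R ≤ (y j0 ^ r) ^ R := pow_le_pow_left₀ (prod_nonneg fun j _ => hy j) h1 R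
    _ = y j0 ^ (r * R) := by rw [← pow_mul]
    _ ≤ ∑ j, y j ^ (r * R) := single_le_sum (f := fun j => y j ^ (r * R)) (fun j _ => pow_nonneg (hy j) _) (mem_univ j0)

lemma sum_inj_le (S : Finset ℕ) (g : ℕ → ℤ) (hg : Set.InjOn g S) (u v : ℤ) (hS : ∀ m ∈ S, g m ∈ Ioc u v)
    (f : ℤ → ℝ) (hf : ∀ q, 0 ≤ f q) : ∑ m ∈ S, f (g m) ≤ ∑ q ∈ Ioc u v, f q := by
  classical
  rw [← sum_image (f := f) (g := g) (s := S) (by
    intro a ha b hb h
    exact hg ha hb h)]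
  apply sum_le_sum_of_subset_of_nonneg
  · intro q hq
    obtain ⟨m, hm, rfl⟩ := mem_image.1 hq
    exact hS m hm
  · intro q _ _
    exact hf q

/-- **Hölder's inequality for the common divisors.** -/
theorem holder (r : ℕ) (F : Fin r → ℤ[X]) (hF : ∀ j, 1 ≤ (F j).natDegree) (K : ℕ) (η : ℝ) (hη : 0 < η) :
    ∃ A0 : ℕ, ∀ A : ℕ, A0 ≤ A → ∀ E : ℕ, ∃ X0 : ℕ, ∀ x : ℕ, X0 ≤ x →
    ∀ (S : Finset ℕ) (g : Fin r → ℕ → ℤ) (u v : Fin r → ℤ), (∀ j, Set.InjOn (g j) S) →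
      (∀ j, ∀ m ∈ S, g j m ∈ Ioc (u j) (v j)) → (∀ j, (v j : ℝ) - u j ≤ #S * Real.log x ^ K) →
      Real.exp (Real.log (Real.log x) ^ 3) ≤ #S →
      ∑ m ∈ S, ∑ m' ∈ S, ∏ j, Yf ⌊A * Real.log (Real.log x)⌋₊ ⌊Real.log x ^ E⌋₊
        ((F j).eval (g j m) - (F j).eval (g j m')) ≤ (1 + η) * (#S : ℝ) ^ 2 := by
  classical
  rcases Nat.eq_zero_or_pos r with hr0 | hr
  · subst hr0
    refine ⟨0, fun A _ E => ⟨0, fun x _ S g u v _ _ _ _ => ?_⟩⟩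
    simp only [univ_eq_empty, prod_empty, sum_const, nsmul_eq_mul, mul_one]
    nlinarith [sq_nonneg (#S : ℝ)]
  obtain ⟨κ, hκ⟩ : ∃ κ : ℕ, κ = ⌈(2 * K + 1) / Real.log (1 + η)⌉₊ := ⟨_, rfl⟩
  have hlη : 0 < Real.log (1 + η) := Real.log_pos (by linarith)
  have hκ1 : (2 * K + 1) ≤ κ * Real.log (1 + η) := by
    have h1 : (2 * (K : ℝ) + 1) / Real.log (1 + η) ≤ κ := by rw [hκ]; exact Nat.le_ceil _
    rwa [div_le_iff₀ hlη] at h1
  obtain ⟨c, hc⟩ : ∃ c : ℕ, c = ∑ j, cF (fun _ : Fin 1 => F j) := ⟨_, rfl⟩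
  have hcj : ∀ j, cF (fun _ : Fin 1 => F j) ≤ c := fun j => by
    rw [hc]
    exact single_le_sum (f := fun j => cF (fun _ : Fin 1 => F j)) (fun _ _ => Nat.zero_le _) (mem_univ j)
  refine ⟨4 * (r * (κ + 1)) * (c + 1) + 3, fun A hA E => ?_⟩
  obtain ⟨C0, hC0⟩ : ∃ C0 : ℝ, C0 = 4 * (r * (κ + 1)) * c * (1 + E) := ⟨_, rfl⟩
  have hev : ∀ᶠ x : ℕ in atTop, Real.exp (C0 + 4 * r + 2) ≤ Real.log x := evt_log_ge _
  obtain ⟨X0, h0⟩ := eventually_atTop.1 hev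
  refine ⟨X0, fun x hx S g u v hg hS hv hSx => ?_⟩
  have hLx := h0 x hx
  obtain ⟨L, hL⟩ : ∃ L, L = Real.log x := ⟨_, rfl⟩
  rw [← hL] at hLx hv hSx ⊢
  have hrr : (1 : ℝ) ≤ r := by exact_mod_cast hr
  have hκ0 : (0 : ℝ) ≤ κ := Nat.cast_nonneg _
  have hc0 : (0 : ℝ) ≤ c := Nat.cast_nonneg _
  have hE0 : (0 : ℝ) ≤ E := Nat.cast_nonneg _
  have hC00 : 0 ≤ C0 := by rw [hC0]; positivity
  have hL0 : 0 < L := (Real.exp_pos _).trans_le hLx
  obtain ⟨ℓ, hℓ⟩ : ∃ ℓ, ℓ = Real.log L := ⟨_, rfl⟩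
  have hℓ1 : C0 + 4 * r + 2 ≤ ℓ := by
    rw [hℓ, Real.le_log_iff_exp_le hL0]
    exact hLx
  rw [← hℓ] at hSx ⊢
  have hℓ0 : 0 ≤ ℓ := by linarith
  have hLℓ : L = Real.exp ℓ := by rw [hℓ, Real.exp_log hL0]
  have hL1 : 1 ≤ L := by
    rw [hLℓ]
    exact Real.one_le_exp (by linarith)
  obtain ⟨R, hR⟩ : ∃ R : ℕ, R = ⌈(κ : ℝ) * ℓ⌉₊ := ⟨_, rfl⟩
  have hR1 : (κ : ℝ) * ℓ ≤ R := by rw [hR]; exact Nat.le_ceil _
  have hR2 : (R : ℝ) ≤ (κ + 1) * ℓ := by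
    have : (R : ℝ) < κ * ℓ + 1 := by
      rw [hR]
      exact Nat.ceil_lt_add_one (mul_nonneg hκ0 hℓ0)
    nlinarith
  have hκpos : 0 < κ := by
    rw [Nat.pos_iff_ne_zero]
    intro h
    rw [h] at hκ1
    have : (0 : ℝ) ≤ K := Nat.cast_nonneg _
    simp only [Nat.cast_zero, zero_mul] at hκ1
    linarith
  have hRpos : 0 < R := by
    have h1 : (0 : ℝ) < κ := by exact_mod_cast hκpos
    have h2 : (0 : ℝ) < κ * ℓ := by
      apply mul_pos h1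
      linarith
    have : (0 : ℝ) < R := by linarith
    exact_mod_cast this
  obtain ⟨M, hM⟩ : ∃ M : ℕ, M = r * R := ⟨_, rfl⟩
  have hMr : (M : ℝ) ≤ r * (κ + 1) * ℓ := by
    rw [hM]
    push_cast
    nlinarith
  obtain ⟨z₁, hz₁⟩ : ∃ z₁ : ℕ, z₁ = ⌊(A : ℝ) * ℓ⌋₊ := ⟨_, rfl⟩
  obtain ⟨z, hz⟩ : ∃ z : ℕ, z = ⌊L ^ E⌋₊ := ⟨_, rfl⟩
  rw [← hz₁, ← hz]
  have hAr : 4 * (r * ((κ : ℝ) + 1)) * (c + 1) + 3 ≤ A := by exact_mod_cast hA
  have hz1 : 1 ≤ z := by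
    rw [hz]
    apply Nat.le_floor
    rw [Nat.cast_one]
    exact one_le_pow₀ hL1
  have hM0 : (0 : ℝ) ≤ M := Nat.cast_nonneg _
  have hMz : 4 * M * (c + 1) + 1 ≤ z₁ := by
    rw [hz₁]
    apply Nat.le_floor
    push_cast
    have h1 : 4 * (M : ℝ) * (c + 1) ≤ 4 * (r * (κ + 1)) * (c + 1) * ℓ := by
      have := mul_le_mul_of_nonneg_right hMr (show (0 : ℝ) ≤ c + 1 by positivity)
      linarith
    have h2 : (4 * (r * ((κ : ℝ) + 1)) * (c + 1) + 3) * ℓ ≤ A * ℓ := mul_le_mul_of_nonneg_right hAr (by linarith)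
    linarith
  have hz₁1 : 1 ≤ z₁ := by omega
  have hcard0 : (0 : ℝ) ≤ #S := Nat.cast_nonneg _
  -- the windows
  have hpair : ∀ j, ∑ m ∈ S, ∑ m' ∈ S, Yf z₁ z ((F j).eval (g j m) - (F j).eval (g j m')) ^ M ≤
      4 * ((#S : ℝ) * L ^ K) ^ 2 := by
    intro j
    have hSpos : 0 < #S := by
      have : (0 : ℝ) < #S := lt_of_lt_of_le (Real.exp_pos _) hSx
      exact_mod_cast this
    obtain ⟨m0, hm0⟩ := card_pos.1 hSpos
    have huv : u j < v j := by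
      have := mem_Ioc.1 (hS j m0 hm0)
      omega
    obtain ⟨N, hN⟩ : ∃ N : ℕ, (N : ℤ) = v j - u j := ⟨(v j - u j).toNat, Int.toNat_of_nonneg (by omega)⟩
    have hNr : (N : ℝ) = (v j : ℝ) - u j := by
      have : ((N : ℤ) : ℝ) = ((v j - u j : ℤ) : ℝ) := by rw [hN]
      push_cast at this
      exact this
    have hSN : (#S : ℝ) ≤ N := by
      have h1 : #S ≤ #(Ioc (u j) (v j)) := card_le_card_of_injOn (g j) (fun m hm => hS j m hm) (hg j)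
      rw [Int.card_Ioc] at h1
      have h2 : #S ≤ N := by omega
      exact_mod_cast h2
    have h1 := pair_moment (F j) (hF j) M z₁ z hz₁1 hz1 (by
      have h1 : 4 * M * (cF (fun _ : Fin 1 => F j) + 1) ≤ 4 * M * (c + 1) := Nat.mul_le_mul_left _ (by have := hcj j; omega)
      omega) (u j) (v j) N hN (by
      refine le_trans ?_ (hSx.trans hSN)
      apply Real.exp_le_exp.2
      have h2 : (cF (fun _ : Fin 1 => F j) : ℝ) ≤ c := by exact_mod_cast hcj j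
      have h3 : Real.log z ≤ E * ℓ := by
        rw [hℓ, ← Real.log_pow]
        apply Real.log_le_log (by exact_mod_cast hz1)
        rw [hz]
        exact Nat.floor_le (by positivity)
      have h3' : 0 ≤ Real.log (z : ℝ) := Real.log_nonneg (by exact_mod_cast hz1)
      have h4 : 1 + Real.log z ≤ (1 + E) * ℓ := by nlinarith
      have h5 : 4 * (M : ℝ) * cF (fun _ : Fin 1 => F j) * (1 + Real.log z) ≤ 4 * (r * (κ + 1) * ℓ) * c * ((1 + E) * ℓ) := by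
        have q1 : 0 ≤ 4 * (r * ((κ : ℝ) + 1) * ℓ) :=
          mul_nonneg (by norm_num) (mul_nonneg (mul_nonneg (by linarith) (by linarith)) hℓ0)
        apply mul_le_mul _ h4 (by linarith) (mul_nonneg q1 hc0)
        apply mul_le_mul _ h2 (Nat.cast_nonneg _) q1
        linarith
      have h6 : 4 * (r * ((κ : ℝ) + 1) * ℓ) * c * ((1 + E) * ℓ) = C0 * ℓ ^ 2 := by
        rw [hC0]
        ring
      have h7 : C0 * ℓ ^ 2 ≤ ℓ ^ 3 := by
        have h8 : C0 ≤ ℓ := by linarith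
        have h9 : 0 ≤ ℓ ^ 2 := by positivity
        calc C0 * ℓ ^ 2 ≤ ℓ * ℓ ^ 2 := mul_le_mul_of_nonneg_right h8 h9
          _ = ℓ ^ 3 := by ring
      linarith)
    have h2 : ∑ m ∈ S, ∑ m' ∈ S, Yf z₁ z ((F j).eval (g j m) - (F j).eval (g j m')) ^ M ≤
        ∑ q ∈ Ioc (u j) (v j), ∑ q' ∈ Ioc (u j) (v j), Yf z₁ z ((F j).eval q - (F j).eval q') ^ M := by
      have hY0 : ∀ h, 0 ≤ Yf z₁ z h ^ M := fun h => pow_nonneg (by linarith [Yf_ge_one z₁ z h]) _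
      have h3 : ∀ m ∈ S, ∑ m' ∈ S, Yf z₁ z ((F j).eval (g j m) - (F j).eval (g j m')) ^ M ≤
          ∑ q' ∈ Ioc (u j) (v j), Yf z₁ z ((F j).eval (g j m) - (F j).eval q') ^ M := by
        intro m _
        exact sum_inj_le S (g j) (hg j) (u j) (v j) (hS j)
          (fun q' => Yf z₁ z ((F j).eval (g j m) - (F j).eval q') ^ M) (fun q' => hY0 _)
      refine (sum_le_sum h3).trans ?_
      exact sum_inj_le S (g j) (hg j) (u j) (v j) (hS j)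
        (fun q => ∑ q' ∈ Ioc (u j) (v j), Yf z₁ z ((F j).eval q - (F j).eval q') ^ M)
        (fun q => sum_nonneg fun q' _ => hY0 _)
    refine h2.trans (h1.trans ?_)
    have h3 : (N : ℝ) ≤ #S * L ^ K := by rw [hNr]; exact hv j
    have h4 : (N : ℝ) ^ 2 ≤ (#S * L ^ K) ^ 2 := pow_le_pow_left₀ (Nat.cast_nonneg _) h3 2
    linarith
  -- Hölder
  obtain ⟨W, hW⟩ : ∃ W, W = ∑ m ∈ S, ∑ m' ∈ S, ∏ j, Yf z₁ z ((F j).eval (g j m) - (F j).eval (g j m')) := ⟨_, rfl⟩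
  rw [← hW]
  have hY0 : ∀ h, 0 ≤ Yf z₁ z h := fun h => by linarith [Yf_ge_one z₁ z h]
  have hW0 : 0 ≤ W := by
    rw [hW]
    exact sum_nonneg fun m _ => sum_nonneg fun m' _ => prod_nonneg fun j _ => hY0 _
  obtain ⟨R', rfl⟩ : ∃ R', R = R' + 1 := ⟨R - 1, by omega⟩
  have hWp : W = ∑ p ∈ S ×ˢ S, ∏ j, Yf z₁ z ((F j).eval (g j p.1) - (F j).eval (g j p.2)) := by
    rw [hW, sum_product]
  have h1 : W ^ (R' + 1) / (#(S ×ˢ S) : ℝ) ^ R' ≤
      ∑ p ∈ S ×ˢ S, (∏ j, Yf z₁ z ((F j).eval (g j p.1) - (F j).eval (g j p.2))) ^ (R' + 1) := by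
    rw [hWp]
    exact pow_sum_div_card_le_sum_pow (fun p _ => prod_nonneg fun j _ => hY0 _) R'
  have h2 : ∑ p ∈ S ×ˢ S, (∏ j, Yf z₁ z ((F j).eval (g j p.1) - (F j).eval (g j p.2))) ^ (R' + 1) ≤
      r * (4 * ((#S : ℝ) * L ^ K) ^ 2) := by
    calc ∑ p ∈ S ×ˢ S, (∏ j, Yf z₁ z ((F j).eval (g j p.1) - (F j).eval (g j p.2))) ^ (R' + 1)
        ≤ ∑ p ∈ S ×ˢ S, ∑ j, Yf z₁ z ((F j).eval (g j p.1) - (F j).eval (g j p.2)) ^ (r * (R' + 1)) :=
          sum_le_sum fun p _ => prod_le_sum_pow r hr _ (fun j => hY0 _) (R' + 1)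
      _ = ∑ j, ∑ m ∈ S, ∑ m' ∈ S, Yf z₁ z ((F j).eval (g j m) - (F j).eval (g j m')) ^ M := by
          rw [sum_comm]
          apply sum_congr rfl
          intro j _
          rw [sum_product, hM]
      _ ≤ ∑ _j : Fin r, 4 * ((#S : ℝ) * L ^ K) ^ 2 := sum_le_sum fun j _ => hpair j
      _ = r * (4 * ((#S : ℝ) * L ^ K) ^ 2) := by rw [sum_const, card_univ, Fintype.card_fin, nsmul_eq_mul]
  have hSpos : (0 : ℝ) < #S := lt_of_lt_of_le (Real.exp_pos _) hSx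
  have h3 : W ^ (R' + 1) ≤ r * (4 * ((#S : ℝ) * L ^ K) ^ 2) * ((#S : ℝ) ^ 2) ^ R' := by
    have h4 := h1.trans h2
    rw [card_product, Nat.cast_mul, ← sq, div_le_iff₀ (pow_pos (pow_pos hSpos 2) R')] at h4
    exact h4
  have h4 : r * (4 * ((#S : ℝ) * L ^ K) ^ 2) * ((#S : ℝ) ^ 2) ^ R' = (4 * r * L ^ (2 * K)) * ((#S : ℝ) ^ 2) ^ (R' + 1) := by
    rw [pow_succ ((#S : ℝ) ^ 2) R', mul_pow, ← pow_mul L K 2, mul_comm K 2]
    ring
  have h5 : 4 * r * L ^ (2 * K) ≤ (1 + η) ^ (R' + 1) := by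
    have h6 : 4 * (r : ℝ) ≤ L := by
      have := Real.add_one_le_exp ℓ
      rw [← hLℓ] at this
      linarith
    calc 4 * (r : ℝ) * L ^ (2 * K) ≤ L * L ^ (2 * K) := mul_le_mul_of_nonneg_right h6 (by positivity)
      _ = Real.exp ((2 * K + 1) * ℓ) := by
          rw [hLℓ, ← Real.exp_nat_mul, ← Real.exp_add]
          congr 1
          push_cast
          ring
      _ ≤ Real.exp (κ * Real.log (1 + η) * ℓ) := by
          apply Real.exp_le_exp.2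
          exact mul_le_mul_of_nonneg_right hκ1 (by linarith)
      _ ≤ Real.exp (((R' + 1 : ℕ) : ℝ) * Real.log (1 + η)) := by
          apply Real.exp_le_exp.2
          have := mul_le_mul_of_nonneg_right hR1 hlη.le
          linarith
      _ = (1 + η) ^ (R' + 1) := by
          rw [Real.exp_nat_mul, Real.exp_log (by linarith)]
  have h6 : W ^ (R' + 1) ≤ ((1 + η) * (#S : ℝ) ^ 2) ^ (R' + 1) := by
    rw [mul_pow]
    rw [h4] at h3
    exact h3.trans (mul_le_mul_of_nonneg_right h5 (pow_nonneg (pow_nonneg hcard0 2) _))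
  exact (pow_le_pow_iff_left₀ hW0 (mul_nonneg (by linarith) (pow_nonneg hcard0 2)) (by omega)).1 h6

end Pool.Agent.Q156.SW
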