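import Pool.Agent.Q156.SW.S4

/-!
The second moment over the tuples.
-/

set_option autoImplicit false

namespace Pool.Agent.Q156.SW

open Finset Filter Topology Polynomial

/-- the second moment -/
theorem secmom (r T : ℕ) (S : Finset ℕ) (b : Fin r → ℕ → ℕ → ℝ) (hb : ∀ j m t, 0 ≤ b j m t) (η : ℝ) (hη : 0 ≤ η)
    (hη1 : η ≤ 1) (Y : Fin r → ℕ → ℕ → ℝ)
    (h1 : ∀ j, ∀ m ∈ S, (1 - η) * T ≤ ∑ t ∈ Icc 1 T, b j m t)
    (h2 : ∀ j, ∀ m ∈ S, ∀ m' ∈ S, ∑ t ∈ Icc 1 T, b j m t * b j m' t ≤ ((1 + η) * T) * Y j m m')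
    (h3 : ∑ m ∈ S, ∑ m' ∈ S, ∏ j, Y j m m' ≤ (1 + η) * (#S : ℝ) ^ 2) :
    ∑ t ∈ Fintype.piFinset (fun _ : Fin r => Icc 1 T), (∑ m ∈ S, ∏ j, b j m (t j) - #S) ^ 2 ≤
      ((1 + η) ^ (r + 1) - 2 * (1 - η) ^ r + 1) * (#S : ℝ) ^ 2 * (T : ℝ) ^ r := by
  classical
  obtain ⟨Bx, hBx⟩ : ∃ Bx, Bx = Fintype.piFinset (fun _ : Fin r => Icc 1 T) := ⟨_, rfl⟩
  have hT0 : (0 : ℝ) ≤ T := Nat.cast_nonneg _
  have hn0 : (0 : ℝ) ≤ #S := Nat.cast_nonneg _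
  have hcard : (#Bx : ℝ) = (T : ℝ) ^ r := by
    rw [hBx, Fintype.card_piFinset, prod_const, card_univ, Fintype.card_fin, Nat.card_Icc, Nat.add_sub_cancel]
    push_cast
    rfl
  rw [← hBx]
  -- the first moment
  have e1 : (#S : ℝ) * ((1 - η) ^ r * (T : ℝ) ^ r) ≤ ∑ t ∈ Bx, ∑ m ∈ S, ∏ j, b j m (t j) := by
    rw [sum_comm]
    have f1 : ∀ m ∈ S, (1 - η) ^ r * (T : ℝ) ^ r ≤ ∑ t ∈ Bx, ∏ j, b j m (t j) := by
      intro m hm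
      rw [hBx, ← prod_univ_sum (fun _ : Fin r => Icc 1 T) (fun j t => b j m t), ← mul_pow]
      calc ((1 - η) * (T : ℝ)) ^ r = ∏ _j : Fin r, ((1 - η) * (T : ℝ)) := by
            rw [prod_const, card_univ, Fintype.card_fin]
        _ ≤ ∏ j, ∑ t ∈ Icc 1 T, b j m t :=
            Finset.prod_le_prod (fun _ _ => mul_nonneg (by linarith) hT0) (fun j _ => h1 j m hm)
    calc (#S : ℝ) * ((1 - η) ^ r * (T : ℝ) ^ r) = ∑ _m ∈ S, (1 - η) ^ r * (T : ℝ) ^ r := by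
          rw [sum_const, nsmul_eq_mul]
      _ ≤ _ := sum_le_sum f1
  -- the second moment
  have e2 : ∑ t ∈ Bx, (∑ m ∈ S, ∏ j, b j m (t j)) ^ 2 ≤ (1 + η) ^ (r + 1) * (#S : ℝ) ^ 2 * (T : ℝ) ^ r := by
    have f1 : ∀ t ∈ Bx, (∑ m ∈ S, ∏ j, b j m (t j)) ^ 2 = ∑ m ∈ S, ∑ m' ∈ S, ∏ j, (b j m (t j) * b j m' (t j)) := by
      intro t _
      rw [sq, sum_mul_sum]
      apply sum_congr rfl
      intro m _
      apply sum_congr rfl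
      intro m' _
      rw [prod_mul_distrib]
    rw [sum_congr rfl f1, sum_comm]
    have f2 : ∀ m ∈ S, ∑ t ∈ Bx, ∑ m' ∈ S, ∏ j, (b j m (t j) * b j m' (t j)) ≤
        ∑ m' ∈ S, ((1 + η) * T) ^ r * ∏ j, Y j m m' := by
      intro m hm
      rw [sum_comm]
      apply sum_le_sum
      intro m' hm'
      rw [hBx, ← prod_univ_sum (fun _ : Fin r => Icc 1 T) (fun j t => b j m t * b j m' t)]
      calc ∏ j, ∑ t ∈ Icc 1 T, b j m t * b j m' t ≤ ∏ j, (((1 + η) * T) * Y j m m') :=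
            Finset.prod_le_prod (fun j _ => sum_nonneg fun t _ => mul_nonneg (hb _ _ _) (hb _ _ _))
              (fun j _ => h2 j m hm m' hm')
        _ = ((1 + η) * T) ^ r * ∏ j, Y j m m' := by
            rw [prod_mul_distrib, prod_const, card_univ, Fintype.card_fin]
    refine (sum_le_sum f2).trans ?_
    have f3 : ∑ m ∈ S, ∑ m' ∈ S, ((1 + η) * (T : ℝ)) ^ r * ∏ j, Y j m m' =
        ((1 + η) * T) ^ r * ∑ m ∈ S, ∑ m' ∈ S, ∏ j, Y j m m' := by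
      rw [mul_sum]
      apply sum_congr rfl
      intro m _
      rw [mul_sum]
    rw [f3]
    calc ((1 + η) * (T : ℝ)) ^ r * ∑ m ∈ S, ∑ m' ∈ S, ∏ j, Y j m m' ≤ ((1 + η) * T) ^ r * ((1 + η) * (#S : ℝ) ^ 2) :=
          mul_le_mul_of_nonneg_left h3 (by positivity)
      _ = (1 + η) ^ (r + 1) * (#S : ℝ) ^ 2 * (T : ℝ) ^ r := by
          rw [mul_pow]
          ring
  have e3 : ∑ t ∈ Bx, (∑ m ∈ S, ∏ j, b j m (t j) - #S) ^ 2 =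
      ∑ t ∈ Bx, (∑ m ∈ S, ∏ j, b j m (t j)) ^ 2 - 2 * #S * ∑ t ∈ Bx, ∑ m ∈ S, ∏ j, b j m (t j) +
        (#S : ℝ) ^ 2 * (T : ℝ) ^ r := by
    have f1 : ∀ t ∈ Bx, (∑ m ∈ S, ∏ j, b j m (t j) - (#S : ℝ)) ^ 2 =
        (∑ m ∈ S, ∏ j, b j m (t j)) ^ 2 - 2 * #S * (∑ m ∈ S, ∏ j, b j m (t j)) + (#S : ℝ) ^ 2 := by
      intro t _
      ring
    rw [sum_congr rfl f1, sum_add_distrib, sum_sub_distrib, ← mul_sum, sum_const, nsmul_eq_mul, hcard]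
    ring
  rw [e3]
  have e4 := mul_le_mul_of_nonneg_left e1 (show (0 : ℝ) ≤ 2 * #S by positivity)
  nlinarith

/-- Chebyshev's inequality -/
theorem cheb {ι : Type*} (B : Finset ι) (f : ι → ℝ) (n ξ Q : ℝ) (hn : 0 < n) (hξ : 0 < ξ)
    (h : ∑ t ∈ B, (f t - n) ^ 2 ≤ Q * n ^ 2) [DecidablePred fun t => ¬ |f t - n| ≤ ξ * n] :
    ((B.filter (fun t => ¬ |f t - n| ≤ ξ * n)).card : ℝ) ≤ Q / ξ ^ 2 := by
  have h1 : ((B.filter (fun t => ¬ |f t - n| ≤ ξ * n)).card : ℝ) * (ξ * n) ^ 2 ≤ Q * n ^ 2 := by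
    calc ((B.filter (fun t => ¬ |f t - n| ≤ ξ * n)).card : ℝ) * (ξ * n) ^ 2
        = ∑ _t ∈ B.filter (fun t => ¬ |f t - n| ≤ ξ * n), (ξ * n) ^ 2 := by rw [sum_const, nsmul_eq_mul]
      _ ≤ ∑ t ∈ B.filter (fun t => ¬ |f t - n| ≤ ξ * n), (f t - n) ^ 2 := by
          apply sum_le_sum
          intro t ht
          have h2 := (mem_filter.1 ht).2
          push Not at h2
          rw [← sq_abs (f t - n)]
          exact pow_le_pow_left₀ (by positivity) h2.le 2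
      _ ≤ ∑ t ∈ B, (f t - n) ^ 2 := sum_le_sum_of_subset_of_nonneg (filter_subset _ _) (fun _ _ _ => sq_nonneg _)
      _ ≤ Q * n ^ 2 := h
  rw [mul_pow, ← mul_assoc] at h1
  have h2 : (0 : ℝ) < n ^ 2 := by positivity
  have h3 := le_of_mul_le_mul_right h1 h2
  rwa [le_div_iff₀ (by positivity)]

lemma delta_small (r : ℕ) (δ : ℝ) (hδ : 0 < δ) : ∃ η : ℝ, 0 < η ∧ η ≤ 1 ∧
    (1 + η) ^ (r + 1) - 2 * (1 - η) ^ r + 1 ≤ δ := by
  have h1 : Tendsto (fun η : ℝ => (1 + η) ^ (r + 1) - 2 * (1 - η) ^ r + 1) (𝓝 0) (𝓝 ((1 + 0) ^ (r + 1) - 2 * (1 - 0) ^ r + 1)) := by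
    apply Continuous.tendsto
    fun_prop
  have h2 : ((1 : ℝ) + 0) ^ (r + 1) - 2 * (1 - 0) ^ r + 1 = 0 := by
    simp
    norm_num
  rw [h2] at h1
  have h3 := h1.eventually (ge_mem_nhds hδ)
  obtain ⟨e, he, h4⟩ := Metric.eventually_nhds_iff.1 h3
  refine ⟨min (e / 2) 1, by positivity, min_le_right _ _, ?_⟩
  apply h4
  rw [Real.dist_eq, sub_zero, abs_of_pos (by positivity)]
  exact (min_le_left _ _).trans_lt (by linarith)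

end Pool.Agent.Q156.SW
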