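import Pool.Agent.Q156.SW.S6

/-!
The main theorem: only the primes up to a constant times `log log x` matter.
-/

set_option autoImplicit false

namespace Pool.Agent.Q156.SW

open Finset Filter Topology Polynomial
open Pool.Agent.H373R2.T7 (pz mem_pz Vz Vz_pos Vz_le_one Vz_inv_small)
open Pool.Agent.TH204.WR (rt evt_log_ge evt_log_pow)
open Pool.Agent.Q156.MW (pr md log_near prod_near loglog_small md_eq md_zero)

open Classical in
/-- the number of the `m ∈ S` with all values prime -/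
noncomputable def cntS {r : ℕ} (F : Fin r → ℤ[X]) (S : Finset ℕ) (g : Fin r → ℕ → ℤ) (a : Fin r → ℤ) : ℕ :=
  (S.filter (fun m => ∀ j, ((F j).eval (g j m) + a j).natAbs.Prime)).card

lemma cntS_eq {r : ℕ} (F : Fin r → ℤ[X]) (S : Finset ℕ) (g : Fin r → ℕ → ℤ) (a : Fin r → ℤ) :
    (cntS F S g a : ℝ) = ∑ m ∈ S, ∏ j, pr (F j) (a j) (g j m) := by
  classical
  unfold cntS pr
  rw [card_filter]
  push_cast
  apply sum_congr rfl
  intro m _
  rw [prod_boole]
  simp

/-- the growth conditions -/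
lemma growth (k K A B E K2 U : ℕ) (η ε : ℝ) (hη : 0 < η) (hε : 0 < ε) (c : ℝ) : ∃ X0 : ℕ, ∀ x : ℕ, X0 ≤ x →
    c ≤ Real.log x ∧ 8 ≤ Real.log x ∧ Real.log x ^ (B + K) ≤ rt k x ∧
    Real.exp (Real.log (Real.log x) ^ 3) * Real.log x ^ K ≤ rt k x ∧
    (2 / η) * Real.log x ^ (E * K2 + 2 + (2 * A + K)) ≤ x ∧
    (A : ℝ) * Real.log (Real.log x) + 1 ≤ Real.log x ∧ 1 ≤ Real.log (Real.log x) := by
  have a1 := loglog_small 3 (1 / (2 * (k + 1))) (by positivity)
  have a2 := loglog_small 1 (1 / (2 * (k + 1) * (K + 1))) (by positivity)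
  have a3 := evt_log_pow (B + K) ((1 : ℝ) / (k + 1)) (by positivity)
  have a4 := evt_log_pow (E * K2 + 2 + (2 * A + K) + 1) (1 : ℝ) one_pos
  have a5 := loglog_small 1 (1 / (2 * (A + 1))) (by positivity)
  have a6 := evt_log_ge (max c (max 8 (2 / η)))
  have a7 := evt_log_ge (Real.exp 1)
  obtain ⟨X0, h0⟩ := eventually_atTop.1 (a1.and (a2.and (a3.and (a4.and (a5.and (a6.and (a7.and (eventually_ge_atTop 1))))))))
  refine ⟨X0, fun x hx => ?_⟩
  obtain ⟨h1, h2, h3, h4, h5, h6, h7, h8⟩ := h0 x hx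
  have hx0 : (0 : ℝ) < x := by exact_mod_cast h8
  have hc := (le_max_left _ _).trans h6
  have h8' := ((le_max_left _ _).trans (le_max_right _ _)).trans h6
  have hη' := ((le_max_right _ _).trans (le_max_right _ _)).trans h6
  obtain ⟨L, hL⟩ : ∃ L, L = Real.log x := ⟨_, rfl⟩
  rw [← hL] at h1 h2 h3 h4 h5 h7 hc h8' hη' ⊢
  have hL0 : 0 < L := by linarith
  have hℓ1 : 1 ≤ Real.log L := by
    rw [Real.le_log_iff_exp_le hL0]
    exact h7
  rw [pow_one] at h2 h5
  have hrt : rt k x = Real.exp (L / (k + 1)) := by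
    unfold rt
    rw [Real.rpow_def_of_pos hx0, ← hL]
    congr 1
    ring
  refine ⟨hc, h8', ?_, ?_, ?_, ?_, hℓ1⟩
  · exact h3
  · rw [hrt]
    have e1 : L ^ K = Real.exp (K * Real.log L) := by
      rw [Real.exp_nat_mul, Real.exp_log hL0]
    rw [e1, ← Real.exp_add]
    apply Real.exp_le_exp.2
    have hK0 : (0 : ℝ) ≤ K := Nat.cast_nonneg _
    have hk0 : (0 : ℝ) < (k : ℝ) + 1 := by positivity
    have e2 : (K : ℝ) * Real.log L ≤ 1 / (2 * (k + 1)) * L := by
      calc (K : ℝ) * Real.log L ≤ (K + 1) * Real.log L := by nlinarith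
        _ ≤ (K + 1) * (1 / (2 * (k + 1) * (K + 1)) * L) := mul_le_mul_of_nonneg_left h2 (by positivity)
        _ = 1 / (2 * (k + 1)) * L := by field_simp
    have e3 : 1 / (2 * ((k : ℝ) + 1)) * L + 1 / (2 * (k + 1)) * L = L / (k + 1) := by
      field_simp
      ring
    linarith
  · rw [Real.rpow_one, pow_succ] at h4
    have e1 : 0 ≤ L ^ (E * K2 + 2 + (2 * A + K)) := by positivity
    nlinarith
  · have e1 : (A : ℝ) * Real.log L ≤ 1 / 2 * L := by
      have hA0 : (0 : ℝ) ≤ A := Nat.cast_nonneg _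
      calc (A : ℝ) * Real.log L ≤ (A + 1) * Real.log L := by nlinarith
        _ ≤ (A + 1) * (1 / (2 * (A + 1)) * L) := mul_le_mul_of_nonneg_left h5 (by positivity)
        _ = 1 / 2 * L := by field_simp
    linarith

end Pool.Agent.Q156.SW
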