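import Pool.Agent.Q156.SW.S7

/-!
The main theorem: only the primes up to a constant times `log log x` matter.
-/

set_option autoImplicit false

namespace Pool.Agent.Q156.SW

open Finset Filter Topology Polynomial
open Pool.Agent.H373R2.T7 (pz mem_pz Vz Vz_pos Vz_le_one Vz_inv_small)
open Pool.Agent.TH204.WR (rt evt_log_ge evt_log_pow)
open Pool.Agent.Q156.MW (pr md log_near prod_near loglog_small md_eq md_zero)

lemma val_aux (x f a P : ℤ) (t T : ℕ) (hP : 0 ≤ P) (h1 : 8 * |f| ≤ x) (h2 : x ≤ 4 * a) (h3 : 2 * a ≤ x)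
    (ht : t ≤ T) (h5 : 4 * ((T : ℤ) * P) ≤ x) : x ≤ 8 * (f + (a + P * (t : ℤ))) ∧ f + (a + P * (t : ℤ)) ≤ x := by
  have h4 : P * (t : ℤ) ≤ P * T := mul_le_mul_of_nonneg_left (by exact_mod_cast ht) hP
  have h6 : (0 : ℤ) ≤ P * t := by positivity
  obtain ⟨h7, h8⟩ := abs_le.1 (show |f| ≤ |f| from le_rfl)
  have h9 := abs_nonneg f
  constructor <;> linarith

lemma box_aux (x a P : ℤ) (t T : ℕ) (hP : 0 ≤ P) (h2 : x ≤ 4 * a) (h3 : 2 * a ≤ x)
    (ht : t ≤ T) (h5 : 4 * ((T : ℤ) * P) ≤ x) : -x ≤ a + P * (t : ℤ) ∧ a + P * (t : ℤ) ≤ x := by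
  have h4 : P * (t : ℤ) ≤ P * T := mul_le_mul_of_nonneg_left (by exact_mod_cast ht) hP
  have h6 : (0 : ℤ) ≤ P * t := by positivity
  constructor <;> linarith

lemma x16_aux (x : ℝ) (hx : 0 < x) (h : 8 ≤ Real.log x) : 16 ≤ x := by
  have h2 : Real.log x ≤ 2 * √x := by
    have h3 := Real.log_le_sub_one_of_pos (Real.sqrt_pos.2 hx)
    have h4 : Real.log (√x) = Real.log x / 2 := Real.log_sqrt hx.le
    linarith
  have h3 : 4 ≤ √x := by linarith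
  have h4 : √x ^ 2 = x := Real.sq_sqrt hx.le
  nlinarith

lemma near_aux (x L y : ℝ) (hL : 8 ≤ L) (hx : 0 < x) (h : x ≤ 8 * y) (h2 : y ≤ x) :
    x / L ^ 1 ≤ y ∧ y ≤ x * L ^ 1 := by
  have hL0 : 0 < L := by linarith
  rw [pow_one]
  constructor
  · rw [div_le_iff₀ hL0]
    nlinarith
  · nlinarith

lemma PL_aux (A z₁ P : ℕ) (ℓ L : ℝ) (hℓ : 0 ≤ ℓ) (hLe : L = Real.exp ℓ) (h5 : (z₁ : ℝ) ≤ A * ℓ)
    (h1 : P ≤ 4 ^ z₁) : (P : ℝ) ≤ L ^ (2 * A) := by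
  have h2 : (P : ℝ) ≤ (4 : ℝ) ^ z₁ := by exact_mod_cast h1
  have h3 : (4 : ℝ) ^ z₁ = Real.exp (z₁ * Real.log 4) := by
    rw [Real.exp_nat_mul, Real.exp_log (by norm_num)]
  have h4 : Real.log 4 ≤ 2 := by
    rw [show (4 : ℝ) = 2 ^ 2 by norm_num, Real.log_pow]
    have := Real.log_two_lt_d9
    push_cast
    linarith
  have h40 : 0 ≤ Real.log 4 := Real.log_nonneg (by norm_num)
  have hA0 : (0 : ℝ) ≤ A := Nat.cast_nonneg _
  calc (P : ℝ) ≤ Real.exp (z₁ * Real.log 4) := by rw [← h3]; exact h2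
    _ ≤ Real.exp ((2 * A : ℕ) * ℓ) := by
        apply Real.exp_le_exp.2
        push_cast
        have h6 : (z₁ : ℝ) * Real.log 4 ≤ (A * ℓ) * 2 := mul_le_mul h5 h4 h40 (mul_nonneg hA0 hℓ)
        linarith
    _ = L ^ (2 * A) := by rw [Real.exp_nat_mul, ← hLe]

lemma fin_alg (N Q W G n ε₁ ε ξ : ℝ) (hξ : ξ = ε₁ / 8) (hG0 : 0 < G) (hn : 0 < n) (hε₁0 : 0 < ε₁) (hε₁1 : ε₁ ≤ 1)
    (hε₁ε : ε₁ ≤ ε) (h4 : |N - Q| ≤ ε₁ / 8 * (G * n)) (h2 : |Q - G * W| ≤ ε₁ / 8 * (G * W))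
    (htW : |W - n| ≤ ξ * n) : |N - G * n| ≤ ε * (G * n) := by
  obtain ⟨q1, q2⟩ := abs_le.1 h4
  obtain ⟨q3, q4⟩ := abs_le.1 h2
  obtain ⟨q5, q6⟩ := abs_le.1 htW
  have hGn : 0 ≤ G * n := mul_nonneg hG0.le hn.le
  have q7 : G * W ≤ G * n + ξ * (G * n) := by
    have := mul_le_mul_of_nonneg_left q6 hG0.le
    linarith
  have q8 : G * n - ξ * (G * n) ≤ G * W := by
    have := mul_le_mul_of_nonneg_left q5 hG0.le
    linarith
  rw [hξ] at q7 q8
  have q10 : ε₁ * (G * n) ≤ ε * (G * n) := mul_le_mul_of_nonneg_right hε₁ε hGn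
  have q11 : 0 ≤ ε₁ * (G * n) := mul_nonneg hε₁0.le hGn
  have q12 : ε₁ * (G * n) ≤ 1 * (G * n) := mul_le_mul_of_nonneg_right hε₁1 hGn
  have q9 : ε₁ / 8 * (G * W) ≤ ε₁ / 8 * (2 * (G * n)) := by
    apply mul_le_mul_of_nonneg_left _ (by positivity)
    linarith
  rw [abs_le]
  constructor
  · linarith
  · linarith

open Classical in
theorem main (r k : ℕ) (hk : 1 ≤ k) (F : Fin r → ℤ[X]) (hF : ∀ j, (F j).natDegree = k + 1) (K : ℕ) (ε : ℝ)
    (hε : 0 < ε) : ∃ A X0 : ℕ, ∀ x : ℕ, X0 ≤ x →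
    ∀ (S : Finset ℕ) (g : Fin r → ℕ → ℤ) (u v : Fin r → ℤ), (∀ j, Set.InjOn (g j) S) →
      (∀ j, ∀ m ∈ S, g j m ∈ Ioc (u j) (v j)) → rt k x ≤ #S * Real.log x ^ K →
      (∀ j, (v j : ℝ) - u j ≤ #S * Real.log x ^ K) → (∀ j, ∀ q ∈ Ioc (u j) (v j), 8 * |(F j).eval q| ≤ x) →
    ∀ (α : Fin r → ℤ) (T : ℕ), (∀ j, (x : ℤ) ≤ 4 * α j ∧ 2 * α j ≤ x) →
      4 * (T * prim ⌊A * Real.log (Real.log x)⌋₊) ≤ x →
      (x : ℝ) ≤ T * prim ⌊A * Real.log (Real.log x)⌋₊ * Real.log x ^ K →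
      (∀ j, ∀ m ∈ S, ∀ p : ℕ, p.Prime → p ≤ ⌊A * Real.log (Real.log x)⌋₊ → ¬ (p : ℤ) ∣ (F j).eval (g j m) + α j) →
      (((Fintype.piFinset (fun _ : Fin r => Icc 1 T)).filter (fun t =>
        ¬ |(cntS F S g (fun j => α j + prim ⌊A * Real.log (Real.log x)⌋₊ * (t j : ℤ)) : ℝ) -
          #S / (Vz ⌊A * Real.log (Real.log x)⌋₊ * Real.log x) ^ r| ≤
          ε * (#S / (Vz ⌊A * Real.log (Real.log x)⌋₊ * Real.log x) ^ r))).card : ℝ) ≤ ε * (T : ℝ) ^ r := by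
  obtain ⟨ε₁, hε₁⟩ : ∃ ε₁, ε₁ = min ε 1 := ⟨_, rfl⟩
  have hε₁0 : 0 < ε₁ := by rw [hε₁]; exact lt_min hε one_pos
  have hε₁1 : ε₁ ≤ 1 := by rw [hε₁]; exact min_le_right _ _
  have hε₁ε : ε₁ ≤ ε := by rw [hε₁]; exact min_le_left _ _
  have hF1 : ∀ j, 1 ≤ (F j).natDegree := fun j => by rw [hF j]; omega
  obtain ⟨ξ, hξ⟩ : ∃ ξ, ξ = ε₁ / 8 := ⟨_, rfl⟩
  have hξ0 : 0 < ξ := by rw [hξ]; positivity
  obtain ⟨η, hη0, hη1, hηδ⟩ := delta_small r (ξ ^ 2 * (ε₁ / 2)) (by positivity)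
  obtain ⟨A, hH⟩ := holder r F hF1 K η hη0
  replace hH := hH A le_rfl
  obtain ⟨U, hU⟩ : ∃ U, U = r * (2 * A + K) + K + r + 1 := ⟨_, rfl⟩
  obtain ⟨B, E0, hE⟩ := tuplesS r (fun _ => k) (fun _ => hk) F hF U K
  obtain ⟨E, hEd⟩ : ∃ E, E = max E0 1 := ⟨_, rfl⟩
  have hE0 : E0 ≤ E := by rw [hEd]; exact le_max_left _ _
  have hE1 : 1 ≤ E := by rw [hEd]; exact le_max_right _ _
  obtain ⟨X1, hE⟩ := hE E hE0
  obtain ⟨X2, hH⟩ := hH E
  obtain ⟨K2, z0, hK2, hmom⟩ := moments (η / 2) (by positivity)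
  obtain ⟨θ, hθ0, hθ1, hθ⟩ := prod_near r (ε₁ / 8) (by positivity)
  obtain ⟨X3, hlog⟩ := log_near θ hθ0 hθ1 1
  obtain ⟨X4, hV⟩ := Vz_inv_small E
  obtain ⟨X5, hg⟩ := growth k K A B E K2 U η ε₁ hη0 hε₁0 (z0 + 2 / ε₁ + 8 * r / ε₁)
  refine ⟨A, max (max X1 X2) (max X3 (max X4 X5)), fun x hx S g u v hginj hgS hxS hvS hFx α T hα hTx hxT hcop => ?_⟩
  have hx1 : X1 ≤ x := (le_max_left _ _).trans ((le_max_left _ _).trans hx)
  have hx2 : X2 ≤ x := (le_max_right _ _).trans ((le_max_left _ _).trans hx)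
  have hx3 : X3 ≤ x := (le_max_left _ _).trans ((le_max_right _ _).trans hx)
  have hx4 : X4 ≤ x := (le_max_left _ _).trans ((le_max_right _ _).trans ((le_max_right _ _).trans hx))
  have hx5 : X5 ≤ x := (le_max_right _ _).trans ((le_max_right _ _).trans ((le_max_right _ _).trans hx))
  replace hE := hE x hx1 S g u v hginj hgS
  replace hH := hH x hx2 S g u v hginj hgS hvS
  replace hlog := hlog x hx3
  replace hV := hV x hx4
  obtain ⟨g1, g2, g3, g4, g5, g6, g7⟩ := hg x hx5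
  obtain ⟨L, hL⟩ : ∃ L, L = Real.log x := ⟨_, rfl⟩
  rw [← hL] at hE hH hlog hV g1 g2 g3 g4 g5 g6 g7 hxS hvS hxT hTx hcop ⊢
  obtain ⟨ℓ, hℓ⟩ : ∃ ℓ, ℓ = Real.log L := ⟨_, rfl⟩
  rw [← hℓ] at hH g4 g6 g7 hTx hxT hcop ⊢
  obtain ⟨z₁, hz₁⟩ : ∃ z₁ : ℕ, z₁ = ⌊(A : ℝ) * ℓ⌋₊ := ⟨_, rfl⟩
  rw [← hz₁] at hH hTx hxT hcop ⊢
  obtain ⟨z, hz⟩ : ∃ z : ℕ, z = ⌊L ^ E⌋₊ := ⟨_, rfl⟩
  rw [← hz] at hE hH
  obtain ⟨P, hP⟩ : ∃ P : ℕ, P = prim z₁ := ⟨_, rfl⟩
  rw [← hP] at hTx hxT ⊢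
  have hP1 : 1 ≤ P := by rw [hP]; exact prim_pos z₁
  have hPd : ∀ p : ℕ, p.Prime → z₁ < p → ¬ (p : ℤ) ∣ (P : ℤ) := by
    intro p hp hpz hd
    rw [hP, Int.natCast_dvd_natCast] at hd
    exact prim_not_dvd hp hpz hd
  have hrr : (0 : ℝ) ≤ r := Nat.cast_nonneg _
  have hz0r : (0 : ℝ) ≤ z0 := Nat.cast_nonneg _
  have h2ε : 0 < 2 / ε₁ := by positivity
  have h8ε : 0 ≤ 8 * r / ε₁ := by positivity
  have hL0 : 0 < L := by linarith
  have hL1 : 1 ≤ L := by linarith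
  have hL8 : 8 ≤ L := by linarith
  have hLe : L = Real.exp ℓ := by rw [hℓ, Real.exp_log hL0]
  have hLE : L ≤ L ^ E := le_self_pow₀ hL1 (by omega)
  have hzL : (z : ℝ) ≤ L ^ E := by rw [hz]; exact Nat.floor_le (pow_nonneg hL0.le _)
  have hzz0 : z0 ≤ z := by
    rw [hz]
    exact Nat.le_floor (by linarith)
  have hz1 : 1 ≤ z := by
    rw [hz]
    exact Nat.le_floor (by push_cast; linarith)
  have hA0 : (0 : ℝ) ≤ A := Nat.cast_nonneg _
  have hz₁z : z₁ ≤ z := by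
    rw [hz]
    apply Nat.le_floor
    have h1 : (z₁ : ℝ) ≤ A * ℓ := by rw [hz₁]; exact Nat.floor_le (mul_nonneg hA0 (by linarith))
    linarith
  have hVL : (Vz z)⁻¹ ≤ L := hV z hz1 hzL
  have hVz0 : 0 < Vz z := Vz_pos z
  have hVz₁0 : 0 < Vz z₁ := Vz_pos z₁
  have hVs := Vz_split z₁ z hz₁z
  have hV10 := V1_pos z₁ z
  have hV1L : (V1 z₁ z)⁻¹ ≤ L := by
    refine le_trans ?_ hVL
    rw [inv_le_inv₀ hV10 hVz0, hVs]
    exact mul_le_of_le_one_left hV10.le (Vz_le_one z₁)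
  -- the size of P and T
  have hPL : (P : ℝ) ≤ L ^ (2 * A) :=
    PL_aux A z₁ P ℓ L (by linarith) hLe (by rw [hz₁]; exact Nat.floor_le (mul_nonneg hA0 (by linarith)))
      (by rw [hP]; exact prim_le z₁)
  have hx0 : (0 : ℝ) < x := by
    have : 0 < rt k x := lt_of_lt_of_le (pow_pos hL0 _) g3
    by_contra hc
    have hx00 : (x : ℝ) = 0 := le_antisymm (not_lt.1 hc) (Nat.cast_nonneg _)
    rw [hx00, Real.log_zero] at hL
    linarith
  have hT0 : (0 : ℝ) ≤ T := Nat.cast_nonneg _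
  have hTL : (x : ℝ) ≤ T * L ^ (2 * A + K) := by
    calc (x : ℝ) ≤ T * P * L ^ K := hxT
      _ ≤ T * L ^ (2 * A) * L ^ K := by
          apply mul_le_mul_of_nonneg_right _ (pow_nonneg hL0.le _)
          exact mul_le_mul_of_nonneg_left hPL hT0
      _ = T * L ^ (2 * A + K) := by rw [pow_add]; ring
  have hTpos : (0 : ℝ) < T := by
    by_contra hc
    have hT00 : (T : ℝ) = 0 := le_antisymm (not_lt.1 hc) hT0
    rw [hT00, zero_mul] at hTL
    linarith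
  -- the size of S
  have hLK0 : 0 < L ^ K := pow_pos hL0 K
  have hSexp : Real.exp (ℓ ^ 3) ≤ #S := by
    have h1 := g4.trans hxS
    exact le_of_mul_le_mul_right h1 hLK0
  have hSpos : (0 : ℝ) < #S := lt_of_lt_of_le (Real.exp_pos _) hSexp
  have hSW : ∀ j, (#S : ℝ) ≤ (v j : ℝ) - u j := by
    intro j
    have h0 : 0 < #S := by exact_mod_cast hSpos
    obtain ⟨m0, hm0⟩ := card_pos.1 h0
    have huv := mem_Ioc.1 (hgS j m0 hm0)
    have h1 : #S ≤ #(Ioc (u j) (v j)) := card_le_card_of_injOn (g j) (fun m hm => hgS j m hm) (hginj j)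
    rw [Int.card_Ioc] at h1
    have h2 : (#S : ℤ) ≤ v j - u j := by omega
    exact_mod_cast h2
  have hSB : L ^ B ≤ (#S : ℝ) := by
    have h1 := g3.trans hxS
    rw [pow_add] at h1
    exact le_of_mul_le_mul_right h1 hLK0
  replace hE := hE (fun j => hSB.trans (hSW j))
  obtain ⟨Bad, hB1, hB2, hB3⟩ := hE
  replace hH := hH hSexp
  -- the values
  have hval : ∀ j, ∀ q ∈ Ioc (u j) (v j), ∀ t : ℕ, t ≤ T →
      (x : ℤ) ≤ 8 * ((F j).eval q + (α j + P * (t : ℤ))) ∧ (F j).eval q + (α j + P * (t : ℤ)) ≤ x := by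
    intro j q hq t ht
    exact val_aux x _ (α j) P t T (by positivity) (hFx j q hq) (hα j).1 (hα j).2 ht (by exact_mod_cast hTx)
  have hx16 : (16 : ℝ) ≤ x := x16_aux x hx0 (by rw [← hL]; exact hL8)
  have hx16z : (16 : ℤ) ≤ x := by exact_mod_cast hx16
  -- the normalised sums
  obtain ⟨b, hb⟩ : ∃ b : Fin r → ℕ → ℕ → ℝ, b = fun j m t => bb z₁ z P ((F j).eval (g j m) + α j) t := ⟨_, rfl⟩
  obtain ⟨Y, hY⟩ : ∃ Y : Fin r → ℕ → ℕ → ℝ, Y = fun j m m' => Yf z₁ z ((F j).eval (g j m) - (F j).eval (g j m')) := ⟨_, rfl⟩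
  have hb0 : ∀ j m t, 0 ≤ b j m t := fun j m t => by rw [hb]; exact bb_nonneg _ _ _ _ _
  have hsmall : (z : ℝ) ^ K2 * L ^ 2 ≤ η / 2 * T := by
    have h1 : (z : ℝ) ^ K2 ≤ L ^ (E * K2) := by
      rw [pow_mul]
      exact pow_le_pow_left₀ (Nat.cast_nonneg _) hzL K2
    have h2 : (2 / η) * L ^ (E * K2 + 2 + (2 * A + K)) ≤ T * L ^ (2 * A + K) := g5.trans hTL
    rw [pow_add, ← mul_assoc] at h2
    have h3 := le_of_mul_le_mul_right h2 (pow_pos hL0 _)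
    rw [pow_add] at h3
    calc (z : ℝ) ^ K2 * L ^ 2 ≤ L ^ (E * K2) * L ^ 2 := mul_le_mul_of_nonneg_right h1 (pow_nonneg hL0.le _)
      _ = η / 2 * (2 / η * (L ^ (E * K2) * L ^ 2)) := by field_simp
      _ ≤ η / 2 * T := mul_le_mul_of_nonneg_left h3 (by positivity)
  have hzK0 : (0 : ℝ) ≤ (z : ℝ) ^ K2 := pow_nonneg (Nat.cast_nonneg _) _
  have hV1i : 0 ≤ (V1 z₁ z)⁻¹ := (inv_pos.2 hV10).le
  have m1 : ∀ j, ∀ m ∈ S, (1 - η) * T ≤ ∑ t ∈ Icc 1 T, b j m t := by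
    intro j m _
    rw [hb]
    simp only
    rw [bb_sum]
    have h1 := (hmom z₁ z hzz0 P hPd ((F j).eval (g j m) + α j) 0 T).2
    have h2 : (V1 z₁ z)⁻¹ * ((1 - η / 2) * (T * V1 z₁ z) - (z : ℝ) ^ K2) ≤
        (V1 z₁ z)⁻¹ * cnt2 z₁ z P ((F j).eval (g j m) + α j) ((F j).eval (g j m) + α j) T :=
      mul_le_mul_of_nonneg_left h1 hV1i
    refine le_trans ?_ h2
    have h3 : (V1 z₁ z)⁻¹ * ((1 - η / 2) * (T * V1 z₁ z) - (z : ℝ) ^ K2) = (1 - η / 2) * T - (V1 z₁ z)⁻¹ * (z : ℝ) ^ K2 := by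
      field_simp
    rw [h3]
    have h4 : (V1 z₁ z)⁻¹ * (z : ℝ) ^ K2 ≤ (z : ℝ) ^ K2 * L ^ 2 := by
      calc (V1 z₁ z)⁻¹ * (z : ℝ) ^ K2 ≤ L ^ 2 * (z : ℝ) ^ K2 :=
            mul_le_mul_of_nonneg_right (hV1L.trans (le_self_pow₀ hL1 (by norm_num))) hzK0
        _ = (z : ℝ) ^ K2 * L ^ 2 := mul_comm _ _
    linarith
  have m2 : ∀ j, ∀ m ∈ S, ∀ m' ∈ S, ∑ t ∈ Icc 1 T, b j m t * b j m' t ≤ ((1 + η) * T) * Y j m m' := by
    intro j m _ m' _
    rw [hb, hY]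
    simp only
    rw [bb_sum2]
    have h1 := (hmom z₁ z hzz0 P hPd ((F j).eval (g j m) + α j) ((F j).eval (g j m') + α j) T).1
    have h0 : (F j).eval (g j m) + α j - ((F j).eval (g j m') + α j) = (F j).eval (g j m) - (F j).eval (g j m') := by ring
    rw [h0] at h1
    obtain ⟨y, hy⟩ : ∃ y, y = Yf z₁ z ((F j).eval (g j m) - (F j).eval (g j m')) := ⟨_, rfl⟩
    have hy1 : 1 ≤ y := by rw [hy]; exact Yf_ge_one _ _ _
    rw [← hy] at h1 ⊢
    have h2 := mul_le_mul_of_nonneg_left h1 (sq_nonneg (V1 z₁ z)⁻¹)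
    refine h2.trans ?_
    have h3 : (V1 z₁ z)⁻¹ ^ 2 * ((1 + η / 2) * (T * (V1 z₁ z ^ 2 * y)) + (z : ℝ) ^ K2) =
        (1 + η / 2) * T * y + (V1 z₁ z)⁻¹ ^ 2 * (z : ℝ) ^ K2 := by
      field_simp
    rw [h3]
    have h4 : (V1 z₁ z)⁻¹ ^ 2 * (z : ℝ) ^ K2 ≤ η / 2 * T := by
      refine le_trans ?_ hsmall
      rw [mul_comm]
      exact mul_le_mul_of_nonneg_left (pow_le_pow_left₀ hV1i hV1L 2) hzK0
    have h5 : η / 2 * T ≤ η / 2 * T * y := le_mul_of_one_le_right (by positivity) hy1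
    linarith
  have m3 : ∑ m ∈ S, ∑ m' ∈ S, ∏ j, Y j m m' ≤ (1 + η) * (#S : ℝ) ^ 2 := by
    rw [hY]
    exact hH
  have hsec := secmom r T S b hb0 η hη0.le hη1 Y m1 m2 m3
  have hsec' : ∑ t ∈ Fintype.piFinset (fun _ : Fin r => Icc 1 T), (∑ m ∈ S, ∏ j, b j m (t j) - #S) ^ 2 ≤
      (ξ ^ 2 * (ε₁ / 2) * (T : ℝ) ^ r) * (#S : ℝ) ^ 2 := by
    refine hsec.trans ?_
    have h1 : ((1 + η) ^ (r + 1) - 2 * (1 - η) ^ r + 1) * ((#S : ℝ) ^ 2 * (T : ℝ) ^ r) ≤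
        ξ ^ 2 * (ε₁ / 2) * ((#S : ℝ) ^ 2 * (T : ℝ) ^ r) :=
      mul_le_mul_of_nonneg_right hηδ (mul_nonneg (sq_nonneg _) (pow_nonneg hT0 _))
    linarith
  have hcheb := cheb (Fintype.piFinset (fun _ : Fin r => Icc 1 T)) (fun t => ∑ m ∈ S, ∏ j, b j m (t j)) (#S) ξ
    (ξ ^ 2 * (ε₁ / 2) * (T : ℝ) ^ r) hSpos hξ0 hsec'
  have hcheb' : (((Fintype.piFinset (fun _ : Fin r => Icc 1 T)).filter
      (fun t => ¬ |∑ m ∈ S, ∏ j, b j m (t j) - #S| ≤ ξ * #S)).card : ℝ) ≤ ε₁ / 2 * (T : ℝ) ^ r := by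
    refine hcheb.trans (le_of_eq ?_)
    field_simp
  -- the exceptional tuples of the engine
  obtain ⟨G, hG⟩ : ∃ G, G = ((Vz z₁ * L) ^ r)⁻¹ := ⟨_, rfl⟩
  have hVL0 : 0 < Vz z₁ * L := mul_pos hVz₁0 hL0
  have hG0 : 0 < G := by rw [hG]; exact inv_pos.2 (pow_pos hVL0 r)
  have hMG : (#S : ℝ) / (Vz z₁ * L) ^ r = G * #S := by rw [hG, div_eq_mul_inv, mul_comm]
  rw [hMG]
  have hGL : 1 / L ^ r ≤ G := by
    rw [hG, one_div]
    apply inv_anti₀ (pow_pos hVL0 r)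
    apply pow_le_pow_left₀ hVL0.le
    exact mul_le_of_le_one_left hL0.le (Vz_le_one z₁)
  have hbad : (((Fintype.piFinset (fun _ : Fin r => Icc 1 T)).filter
      (fun t => (fun j => α j + P * (t j : ℤ)) ∈ Bad)).card : ℝ) ≤ ε₁ / 2 * (T : ℝ) ^ r := by
    have h1 : ((Fintype.piFinset (fun _ : Fin r => Icc 1 T)).filter
        (fun t => (fun j => α j + P * (t j : ℤ)) ∈ Bad)).card ≤ #Bad := by
      apply card_le_card_of_injOn (fun (t : Fin r → ℕ) j => α j + P * (t j : ℤ))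
      · intro t ht
        exact (mem_filter.1 (mem_coe.1 ht)).2
      · intro t _ t' _ h
        funext j
        have h2 := congrFun h j
        simp only [add_right_inj] at h2
        have h3 : ((P : ℤ)) ≠ 0 := by exact_mod_cast (by omega : P ≠ 0)
        have h4 := mul_left_cancel₀ h3 h2
        exact_mod_cast h4
    have h2 : (((Fintype.piFinset (fun _ : Fin r => Icc 1 T)).filter
        (fun t => (fun j => α j + P * (t j : ℤ)) ∈ Bad)).card : ℝ) ≤ #Bad := by exact_mod_cast h1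
    refine h2.trans (hB2.trans ?_)
    rw [div_le_iff₀ (pow_pos hL0 U)]
    have h3 : (x : ℝ) ^ r ≤ (T : ℝ) ^ r * L ^ (r * (2 * A + K)) := by
      calc (x : ℝ) ^ r ≤ (T * L ^ (2 * A + K)) ^ r := pow_le_pow_left₀ hx0.le hTL r
        _ = (T : ℝ) ^ r * L ^ (r * (2 * A + K)) := by rw [mul_pow, ← pow_mul, mul_comm (2 * A + K) r]
    have h4 : 2 / ε₁ ≤ L := by linarith
    have h5 : 1 ≤ ε₁ / 2 * L := by
      rw [div_le_iff₀ hε₁0] at h4
      linarith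
    calc (x : ℝ) ^ r ≤ (T : ℝ) ^ r * L ^ (r * (2 * A + K)) := h3
      _ ≤ (ε₁ / 2 * L) * ((T : ℝ) ^ r * L ^ (r * (2 * A + K))) :=
          le_mul_of_one_le_left (mul_nonneg (pow_nonneg hT0 _) (pow_nonneg hL0.le _)) h5
      _ = ε₁ / 2 * (T : ℝ) ^ r * L ^ (r * (2 * A + K) + 1) := by rw [pow_succ L (r * (2 * A + K))]; ring
      _ ≤ ε₁ / 2 * (T : ℝ) ^ r * L ^ U := by
          apply mul_le_mul_of_nonneg_left _ (mul_nonneg (by positivity) (pow_nonneg hT0 _))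
          apply pow_le_pow_right₀ hL1
          rw [hU]
          omega
  -- the good tuples
  have hgood : ∀ t ∈ Fintype.piFinset (fun _ : Fin r => Icc 1 T), (fun j => α j + P * (t j : ℤ)) ∉ Bad →
      |∑ m ∈ S, ∏ j, b j m (t j) - #S| ≤ ξ * #S →
      |(cntS F S g (fun j => α j + P * (t j : ℤ)) : ℝ) - G * #S| ≤ ε * (G * #S) := by
    intro t ht htB htW
    have ht' : ∀ j, 1 ≤ t j ∧ t j ≤ T := fun j => mem_Icc.1 (Fintype.mem_piFinset.1 ht j)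
    have hbox : (fun j => α j + P * (t j : ℤ)) ∈ Fintype.piFinset (fun _ : Fin r => Icc (-(x : ℤ)) x) := by
      rw [Fintype.mem_piFinset]
      intro j
      rw [mem_Icc]
      exact box_aux x (α j) P (t j) T (by positivity) (hα j).1 (hα j).2 (ht' j).2 (by exact_mod_cast hTx)
    have h1 := hB3 _ hbox htB (fun j q hq => by
      obtain ⟨h2, h3⟩ := hval j q hq (t j) (ht' j).2
      refine ⟨by linarith, ?_⟩
      have h4 : (((F j).eval q + (α j + P * (t j : ℤ)) : ℤ) : ℝ) ≤ x := by exact_mod_cast h3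
      refine h4.trans ?_
      have h5 : (x : ℝ) = rt k x * rt k x ^ k := by
        rw [← pow_succ']
        exact (Pool.Agent.TH204.WR.rt_pow k x).symm
      have h6 : 0 ≤ rt k x ^ k := pow_nonneg (by unfold rt; positivity) _
      calc (x : ℝ) = rt k x * rt k x ^ k := h5
        _ ≤ (#S * L ^ K) * rt k x ^ k := mul_le_mul_of_nonneg_right hxS h6
        _ ≤ (((v j : ℝ) - u j) * L ^ K) * rt k x ^ k := by
            apply mul_le_mul_of_nonneg_right _ h6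
            exact mul_le_mul_of_nonneg_right (hSW j) hLK0.le
        _ = ((v j : ℝ) - u j) * (rt k x ^ k * L ^ K) := by ring)
    rw [← cntS_eq] at h1
    obtain ⟨N, hN⟩ : ∃ N : ℝ, N = (cntS F S g (fun j => α j + P * (t j : ℤ)) : ℝ) := ⟨_, rfl⟩
    obtain ⟨W, hW⟩ : ∃ W : ℝ, W = ∑ m ∈ S, ∏ j, b j m (t j) := ⟨_, rfl⟩
    obtain ⟨Q, hQ⟩ : ∃ Q : ℝ, Q = ∑ m ∈ S, ∏ j, md z (F j) (α j + P * (t j : ℤ)) (g j m) := ⟨_, rfl⟩
    rw [← hW] at htW
    rw [← hN]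
    rw [← hN, ← hQ] at h1
    -- the models
    have h2 : |Q - G * W| ≤ ε₁ / 8 * (G * W) := by
      have e1 : ∀ m ∈ S, |∏ j, md z (F j) (α j + P * (t j : ℤ)) (g j m) - G * ∏ j, b j m (t j)| ≤
          ε₁ / 8 * (G * ∏ j, b j m (t j)) := by
        intro m hm
        have e2 : ∀ j, md z (F j) (α j + P * (t j : ℤ)) (g j m) = (Vz z₁ * L)⁻¹ * b j m (t j) *
            (L / Real.log |(((F j).eval (g j m) + (α j + P * (t j : ℤ)) : ℤ) : ℝ)|) := by
          intro j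
          have e3 : (F j).eval (g j m) + α j + P * (t j : ℤ) = (F j).eval (g j m) + (α j + P * (t j : ℤ)) := by ring
          have e4 : (∀ p : ℕ, p.Prime → p ≤ z → ¬ (p : ℤ) ∣ (F j).eval (g j m) + (α j + P * (t j : ℤ))) ↔
              rg z₁ z ((F j).eval (g j m) + α j + P * (t j : ℤ)) := by
            rw [e3]
            constructor
            · intro h p hp
              obtain ⟨_, h4, h5⟩ := mem_pq.1 hp
              exact h p h5 h4
            · intro h p hp hpz hd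
              rcases le_or_gt p z₁ with h4 | h4
              · apply hcop j m hm p hp h4
                have h5 : (p : ℤ) ∣ P * (t j : ℤ) := by
                  apply Dvd.dvd.mul_right
                  rw [hP, Int.natCast_dvd_natCast]
                  exact prim_dvd hp h4
                have h6 : (F j).eval (g j m) + (α j + P * (t j : ℤ)) = P * (t j : ℤ) + ((F j).eval (g j m) + α j) := by ring
                rw [h6] at hd
                exact (dvd_add_right h5).1 hd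
              · exact h p (mem_pq.2 ⟨h4, hpz, hp⟩) hd
          rw [hb]
          simp only
          unfold md bb
          have e5 : (∏ p ∈ (Icc 1 z).filter Nat.Prime, (1 - 1 / (p : ℝ)))⁻¹ = (Vz z₁ * V1 z₁ z)⁻¹ := by
            rw [← hVs]
            unfold Vz pz
            rfl
          by_cases h7 : rg z₁ z ((F j).eval (g j m) + α j + P * (t j : ℤ))
          · rw [if_pos h7, if_pos (e4.2 h7), e5]
            have a1 := hVz₁0.ne'
            have a2 := hV10.ne'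
            field_simp
          · rw [if_neg h7, if_neg (fun h => h7 (e4.1 h))]
            ring
        have e3 : ∏ j, md z (F j) (α j + P * (t j : ℤ)) (g j m) = G * (∏ j, b j m (t j)) *
            ∏ j, (L / Real.log |(((F j).eval (g j m) + (α j + P * (t j : ℤ)) : ℤ) : ℝ)|) := by
          rw [prod_congr rfl fun j _ => e2 j, prod_mul_distrib, prod_mul_distrib, prod_const, card_univ,
            Fintype.card_fin, hG, inv_pow]
        have e4 : ∀ j, 1 - θ ≤ L / Real.log |(((F j).eval (g j m) + (α j + P * (t j : ℤ)) : ℤ) : ℝ)| ∧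
            L / Real.log |(((F j).eval (g j m) + (α j + P * (t j : ℤ)) : ℤ) : ℝ)| ≤ 1 + θ := by
          intro j
          obtain ⟨h3, h4⟩ := hval j (g j m) (hgS j m hm) (t j) (ht' j).2
          have h3r : (x : ℝ) ≤ 8 * (((F j).eval (g j m) + (α j + P * (t j : ℤ)) : ℤ) : ℝ) := by exact_mod_cast h3
          have h4r : (((F j).eval (g j m) + (α j + P * (t j : ℤ)) : ℤ) : ℝ) ≤ x := by exact_mod_cast h4
          have h5 : (0 : ℝ) ≤ (((F j).eval (g j m) + (α j + P * (t j : ℤ)) : ℤ) : ℝ) := by linarith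
          rw [abs_of_nonneg h5]
          have h8 := near_aux x L _ hL8 hx0 h3r h4r
          obtain ⟨_, h6, h7⟩ := hlog _ h8.1 h8.2
          exact ⟨h6, h7⟩
        obtain ⟨h3, h4⟩ := hθ _ e4
        rw [e3]
        have hGb : 0 ≤ G * ∏ j, b j m (t j) := mul_nonneg hG0.le (prod_nonneg fun j _ => hb0 _ _ _)
        have h5 : G * (∏ j, b j m (t j)) * (∏ j, (L / Real.log |(((F j).eval (g j m) + (α j + P * (t j : ℤ)) : ℤ) : ℝ)|)) -
            G * (∏ j, b j m (t j)) = G * (∏ j, b j m (t j)) *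
            ((∏ j, (L / Real.log |(((F j).eval (g j m) + (α j + P * (t j : ℤ)) : ℤ) : ℝ)|)) - 1) := by ring
        rw [h5, abs_mul, abs_of_nonneg hGb, mul_comm]
        apply mul_le_mul_of_nonneg_right _ hGb
        exact abs_le.2 ⟨by linarith, by linarith⟩
      rw [hQ, hW, mul_sum, ← sum_sub_distrib, mul_sum]
      exact (abs_sum_le_sum_abs _ _).trans (sum_le_sum e1)
    -- the error of the engine
    have h3 : (∑ j, ((v j : ℝ) - u j)) / L ^ U ≤ ε₁ / 8 * (G * #S) := by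
      have e1 : ∑ j, ((v j : ℝ) - u j) ≤ r * (#S * L ^ K) := by
        calc ∑ j, ((v j : ℝ) - u j) ≤ ∑ _j : Fin r, (#S * L ^ K) := sum_le_sum fun j _ => hvS j
          _ = r * (#S * L ^ K) := by rw [sum_const, card_univ, Fintype.card_fin, nsmul_eq_mul]
      rw [div_le_iff₀ (pow_pos hL0 U)]
      refine e1.trans ?_
      have e2 : 8 * r / ε₁ ≤ L := by linarith
      have e3 : (r : ℝ) ≤ ε₁ / 8 * L := by
        rw [div_le_iff₀ hε₁0] at e2
        linarith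
      have e4 : L ^ (K + r + 1) ≤ L ^ U := by
        apply pow_le_pow_right₀ hL1
        rw [hU]
        have := Nat.zero_le (r * (2 * A + K))
        omega
      have e5 : 1 ≤ G * L ^ r := by
        rw [div_le_iff₀ (pow_pos hL0 r)] at hGL
        exact hGL
      calc (r : ℝ) * (#S * L ^ K) ≤ (ε₁ / 8 * L) * (#S * L ^ K) :=
            mul_le_mul_of_nonneg_right e3 (mul_nonneg hSpos.le hLK0.le)
        _ ≤ (G * L ^ r) * ((ε₁ / 8 * L) * (#S * L ^ K)) :=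
            le_mul_of_one_le_left (mul_nonneg (mul_nonneg (by positivity) hL0.le) (mul_nonneg hSpos.le hLK0.le)) e5
        _ = ε₁ / 8 * (G * #S) * L ^ (K + r + 1) := by
            rw [pow_succ, pow_add]
            ring
        _ ≤ ε₁ / 8 * (G * #S) * L ^ U := by
            apply mul_le_mul_of_nonneg_left e4
            exact mul_nonneg (by positivity) (mul_nonneg hG0.le hSpos.le)
    have h4 := h1.trans h3
    obtain ⟨n, hn⟩ : ∃ n : ℝ, n = #S := ⟨_, rfl⟩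
    rw [← hn] at h4 htW hSpos ⊢
    exact fin_alg N Q W G n ε₁ ε ξ hξ hG0 hSpos hε₁0 hε₁1 hε₁ε h4 h2 htW
  -- the conclusion
  have hsub : (Fintype.piFinset (fun _ : Fin r => Icc 1 T)).filter (fun t =>
      ¬ |(cntS F S g (fun j => α j + P * (t j : ℤ)) : ℝ) - G * #S| ≤ ε * (G * #S)) ⊆
      (Fintype.piFinset (fun _ : Fin r => Icc 1 T)).filter (fun t => (fun j => α j + P * (t j : ℤ)) ∈ Bad) ∪
      (Fintype.piFinset (fun _ : Fin r => Icc 1 T)).filter (fun t => ¬ |∑ m ∈ S, ∏ j, b j m (t j) - #S| ≤ ξ * #S) := by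
    intro t ht
    obtain ⟨h1, h2⟩ := mem_filter.1 ht
    rw [mem_union, mem_filter, mem_filter]
    by_contra h3
    push Not at h3
    apply h2
    apply hgood t h1
    · intro h4
      exact h3.1 h1 h4
    · exact h3.2 h1
  have hfin : (((Fintype.piFinset (fun _ : Fin r => Icc 1 T)).filter (fun t =>
      ¬ |(cntS F S g (fun j => α j + P * (t j : ℤ)) : ℝ) - G * #S| ≤ ε * (G * #S))).card : ℝ) ≤
      ε₁ / 2 * (T : ℝ) ^ r + ε₁ / 2 * (T : ℝ) ^ r := by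
    refine le_trans ?_ (add_le_add hbad hcheb')
    exact_mod_cast (card_le_card hsub).trans (card_union_le _ _)
  have hTr : (0 : ℝ) ≤ (T : ℝ) ^ r := pow_nonneg hT0 _
  have := mul_le_mul_of_nonneg_right hε₁ε hTr
  linarith

end Pool.Agent.Q156.SW
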