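import Pool.Agent.Q156.SW.S8
import Pool.Agent.Q258.PntTools

/-!
Primes with prime indices: growth.
-/

set_option autoImplicit false

namespace Pool.Agent.Q156.SW

open Finset Filter Topology
open Pool.Agent.TH204.WR (rt)

/-- the `j`-th prime, `q 1 = 2` -/
noncomputable def q (j : ℕ) : ℕ := Nat.nth Nat.Prime (j - 1)

lemma q_prime (j : ℕ) : (q j).Prime := Nat.prime_nth_prime _

lemma q_mono {i j : ℕ} (h : i ≤ j) : q i ≤ q j := by
  unfold q
  exact (Nat.nth_monotone Nat.infinite_setOf_prime) (by omega)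

lemma q_inj {i j : ℕ} (hi : 1 ≤ i) (hj : 1 ≤ j) (h : q i = q j) : i = j := by
  unfold q at h
  have := Nat.nth_injective Nat.infinite_setOf_prime h
  omega

lemma le_q (j : ℕ) : j ≤ q j := by
  unfold q
  have h := Nat.add_two_le_nth_prime (j - 1)
  omega

lemma qq_le : ∀ᶠ n : ℕ in atTop, 3 * (q (q n) : ℝ) ≤ n * Real.log n ^ 3 ∧ (n : ℝ) ≤ q (q n) ∧ 1 ≤ Real.log n := by
  have hlog : Tendsto (fun y : ℕ => Real.log y) atTop atTop :=
    Real.tendsto_log_atTop.comp tendsto_natCast_atTop_atTop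
  have hq : Tendsto q atTop atTop := tendsto_atTop_mono le_q tendsto_id
  have h1 := Pool.Agent.Q258.PntTools.nth_le
  have h2 := hq.eventually h1
  have h3 := Pool.Agent.TH204.WR.evt_log_pow 2 (1 / 2 : ℝ) (by norm_num)
  filter_upwards [h1, h2, hlog.eventually_ge_atTop 96, eventually_ge_atTop 2, h3] with n a1 a2 a3 a4 a5
  have e1 : (q n : ℝ) ≤ 4 * n * Real.log n := a1
  have e2 : (q (q n) : ℝ) ≤ 4 * q n * Real.log (q n) := a2
  have hn : (2 : ℝ) ≤ n := by exact_mod_cast a4
  have hq0 : (0 : ℝ) < q n := by exact_mod_cast (q_prime n).pos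
  have e3 : Real.log (q n) ≤ 2 * Real.log n := by
    have b1 : 4 * (n : ℝ) * Real.log n ≤ n * n := by
      have c1 : 4 * Real.log n ≤ (n : ℝ) := by
        have c2 : Real.log n ^ 2 ≤ (n : ℝ) ^ (1 / 2 : ℝ) := a5
        have c3 : (n : ℝ) ^ (1 / 2 : ℝ) ≤ n := by
          calc (n : ℝ) ^ (1 / 2 : ℝ) ≤ (n : ℝ) ^ (1 : ℝ) := Real.rpow_le_rpow_of_exponent_le (by linarith) (by norm_num)
            _ = n := Real.rpow_one _
        nlinarith
      nlinarith
    have b2 : Real.log (q n) ≤ Real.log (n * n) := Real.log_le_log hq0 (e1.trans b1)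
    rw [Real.log_mul (by positivity) (by positivity)] at b2
    linarith
  have hL0 : 0 < Real.log n := by linarith
  refine ⟨?_, ?_, by linarith⟩
  · calc 3 * (q (q n) : ℝ) ≤ 3 * (4 * q n * Real.log (q n)) := by linarith
      _ ≤ 3 * (4 * (4 * n * Real.log n) * (2 * Real.log n)) := by
          apply mul_le_mul_of_nonneg_left _ (by norm_num)
          apply mul_le_mul _ e3 (Real.log_nonneg (by exact_mod_cast (q_prime n).one_lt.le)) (by positivity)
          linarith
      _ = n * (96 * Real.log n ^ 2) := by ring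
      _ ≤ n * (Real.log n * Real.log n ^ 2) := by
          apply mul_le_mul_of_nonneg_left _ (by positivity)
          exact mul_le_mul_of_nonneg_right a3 (sq_nonneg _)
      _ = n * Real.log n ^ 3 := by ring
  · exact_mod_cast (le_q n).trans (le_q (q n))

lemma rt_one (x Q : ℕ) (hx : x = 8 * Q ^ 2) : rt 1 x ≤ 3 * Q := by
  have h1 := Pool.Agent.TH204.WR.rt_pow 1 x
  have h0 : 0 ≤ rt 1 x := by unfold rt; positivity
  have hQ : (0 : ℝ) ≤ Q := Nat.cast_nonneg _
  have h2 : (x : ℝ) = 8 * (Q : ℝ) ^ 2 := by rw [hx]; push_cast; ring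
  rw [h2] at h1
  by_contra hc
  push Not at hc
  have h3 : (3 * (Q : ℝ)) ^ 2 < rt 1 x ^ 2 := by
    apply pow_lt_pow_left₀ hc (by positivity) (by norm_num)
  norm_num at h1
  nlinarith [sq_nonneg (Q : ℝ)]

/-- the three primes `p_(n-m)`, `p_m`, `p_(p_m)` -/
noncomputable def arg (n : ℕ) : Fin 3 → ℕ → ℤ := ![fun m => (q (n - m) : ℤ), fun m => (q m : ℤ), fun m => (q (q m) : ℤ)]

lemma arg_cases (n m : ℕ) (j : Fin 3) : arg n j m = q (n - m) ∨ arg n j m = q m ∨ arg n j m = q (q m) := by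
  fin_cases j
  · left; rfl
  · right; left; rfl
  · right; right; rfl

lemma arg_mem (n m : ℕ) (hm : m ∈ Ioo 0 n) (j : Fin 3) : arg n j m ∈ Ioc (0 : ℤ) (q (q n)) := by
  rw [mem_Ioo] at hm
  rw [mem_Ioc]
  have h1 : q (n - m) ≤ q (q n) := (q_mono (by omega : n - m ≤ n)).trans (q_mono (le_q n))
  have h2 : q m ≤ q (q n) := (q_mono hm.2.le).trans (q_mono (le_q n))
  have h3 : q (q m) ≤ q (q n) := q_mono (q_mono hm.2.le)
  have p1 := (q_prime (n - m)).pos
  have p2 := (q_prime m).pos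
  have p3 := (q_prime (q m)).pos
  rcases arg_cases n m j with h | h | h <;> rw [h] <;> constructor <;> (first | exact_mod_cast p1 | exact_mod_cast p2 | exact_mod_cast p3 | exact_mod_cast h1 | exact_mod_cast h2 | exact_mod_cast h3)

lemma arg_inj (n : ℕ) (j : Fin 3) : Set.InjOn (arg n j) (Ioo 0 n : Finset ℕ) := by
  intro m hm m' hm' h
  have h1 := mem_Ioo.1 (mem_coe.1 hm)
  have h2 := mem_Ioo.1 (mem_coe.1 hm')
  fin_cases j
  · have h3 : (q (n - m) : ℤ) = q (n - m') := h
    have h4 := q_inj (by omega) (by omega) (Int.natCast_inj.1 h3)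
    omega
  · have h3 : (q m : ℤ) = q m' := h
    exact q_inj (by omega) (by omega) (Int.natCast_inj.1 h3)
  · have h3 : (q (q m) : ℤ) = q (q m') := h
    have h4 := q_inj (q_prime m).pos (q_prime m').pos (Int.natCast_inj.1 h3)
    exact q_inj (by omega) (by omega) h4

end Pool.Agent.Q156.SW
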